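import Pool.Agent.H818R2.Ram.Basic

/-! Erdős' lower bound `R(k,k)^2 > 2^k`. -/

open Finset

namespace Pool.Agent.H818R2.Ram

/-- the graph of a colouring -/
def gOf {n : ℕ} (c : Sym2 (Fin n) → Bool) : SimpleGraph (Fin n) where
  Adj x y := x ≠ y ∧ c s(x, y) = true
  symm := ⟨fun x y h => ⟨h.1.symm, by rw [Sym2.eq_swap]; exact h.2⟩⟩
  loopless := ⟨fun x h => h.1 rfl⟩

/-- colourings constant equal to `b` on the pairs of `s` -/
noncomputable def bad {n : ℕ} (s : Finset (Fin n)) (b : Bool) : Finset (Sym2 (Fin n) → Bool) :=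
  by classical exact
  Fintype.piFinset (fun e => if e ∈ s.offDiag.image Sym2.mk.uncurry then {b} else univ)

lemma card_bad {n : ℕ} (s : Finset (Fin n)) (b : Bool) :
    (bad s b).card * 2 ^ (s.card.choose 2) = 2 ^ (Fintype.card (Sym2 (Fin n))) := by
  classical
  have h1 : (bad s b).card = ∏ e : Sym2 (Fin n), (if e ∈ s.offDiag.image Sym2.mk.uncurry then 1 else 2) := by
    unfold bad
    rw [Fintype.card_piFinset]
    refine prod_congr rfl fun e _ => ?_
    split_ifs
    · simp
    · simp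
  rw [h1, prod_ite, prod_const_one, one_mul, prod_const, ← pow_add, ← Sym2.card_image_offDiag]
  congr 1
  have h2 := card_filter_add_card_filter_not (s := (univ : Finset (Sym2 (Fin n))))
    (fun e => e ∈ s.offDiag.image Sym2.mk.uncurry)
  have h3 : (univ.filter (fun e => e ∈ s.offDiag.image Sym2.mk.uncurry)) = s.offDiag.image Sym2.mk.uncurry := by
    ext e; simp
  rw [h3, card_univ] at h2
  omega

lemma bad_of_red {n : ℕ} (c : Sym2 (Fin n) → Bool) (s : Finset (Fin n))
    (h : (gOf c).IsClique (s : Set (Fin n))) : c ∈ bad s true := by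
  classical
  unfold bad
  rw [Fintype.mem_piFinset]
  intro e
  split_ifs with he
  · obtain ⟨⟨x, y⟩, hxy, rfl⟩ := mem_image.1 he
    rw [mem_offDiag] at hxy
    have := h hxy.1 hxy.2.1 hxy.2.2
    rw [mem_singleton]
    exact this.2
  · exact mem_univ _

lemma bad_of_blue {n : ℕ} (c : Sym2 (Fin n) → Bool) (s : Finset (Fin n))
    (h : (gOf c)ᶜ.IsClique (s : Set (Fin n))) : c ∈ bad s false := by
  classical
  unfold bad
  rw [Fintype.mem_piFinset]
  intro e
  split_ifs with he
  · obtain ⟨⟨x, y⟩, hxy, rfl⟩ := mem_image.1 he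
    rw [mem_offDiag] at hxy
    have := h hxy.1 hxy.2.1 hxy.2.2
    rw [SimpleGraph.compl_adj] at this
    rw [mem_singleton]
    by_contra h2
    rw [Bool.not_eq_false] at h2
    exact this.2 ⟨this.1, h2⟩
  · exact mem_univ _

lemma lt_R_of_count {n k : ℕ} (h : 2 * n.choose k < 2 ^ (k.choose 2)) : n < R k k := by
  classical
  by_contra hle
  rw [not_lt] at hle
  have harr : ∀ c : Sym2 (Fin n) → Bool, ∃ s ∈ (univ : Finset (Fin n)).powersetCard k,
      ∃ b : Bool, c ∈ bad s b := by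
    intro c
    have hu : R k k ≤ (univ : Finset (Fin n)).card := by rw [card_univ, Fintype.card_fin]; exact hle
    rcases arrows_embed (arrows_R k k) (gOf c) univ hu with h1 | h1
    · obtain ⟨s, hs, hc⟩ := h1
      rw [SimpleGraph.isNClique_iff] at hc
      exact ⟨s, mem_powersetCard.2 ⟨hs, hc.2⟩, true, bad_of_red c s hc.1⟩
    · obtain ⟨s, hs, hc⟩ := h1
      rw [SimpleGraph.isNClique_iff] at hc
      exact ⟨s, mem_powersetCard.2 ⟨hs, hc.2⟩, false, bad_of_blue c s hc.1⟩
  have hcov : (univ : Finset (Sym2 (Fin n) → Bool)) ⊆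
      ((univ : Finset (Fin n)).powersetCard k ×ˢ (univ : Finset Bool)).biUnion
        (fun p => bad p.1 p.2) := by
    intro c _
    obtain ⟨s, hs, b, hb⟩ := harr c
    rw [mem_biUnion]
    exact ⟨(s, b), mem_product.2 ⟨hs, mem_univ _⟩, hb⟩
  have h1 := (card_le_card hcov).trans card_biUnion_le
  rw [card_univ, Fintype.card_fun, Fintype.card_bool] at h1
  have h2 : (∑ p ∈ (univ : Finset (Fin n)).powersetCard k ×ˢ (univ : Finset Bool),
      (bad p.1 p.2).card) * 2 ^ (k.choose 2) =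
      (2 * n.choose k) * 2 ^ (Fintype.card (Sym2 (Fin n))) := by
    rw [sum_mul]
    rw [sum_congr rfl (g := fun _ => 2 ^ (Fintype.card (Sym2 (Fin n))))]
    · rw [sum_const, smul_eq_mul, card_product, card_powersetCard, card_univ, card_univ,
        Fintype.card_fin, Fintype.card_bool]
      ring
    · intro p hp
      rw [mem_product, mem_powersetCard] at hp
      have := card_bad p.1 p.2
      rw [hp.1.2] at this
      exact this
  have h3 : 2 ^ (Fintype.card (Sym2 (Fin n))) * 2 ^ (k.choose 2) ≤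
      (2 * n.choose k) * 2 ^ (Fintype.card (Sym2 (Fin n))) := by
    rw [← h2]
    exact Nat.mul_le_mul_right _ h1
  have h4 : 2 ^ (k.choose 2) ≤ 2 * n.choose k := by
    have hp : 0 < 2 ^ (Fintype.card (Sym2 (Fin n))) := by positivity
    rw [mul_comm (2 * n.choose k)] at h3
    exact Nat.le_of_mul_le_mul_left h3 hp
  omega

lemma four_mul_two_pow_lt {k : ℕ} (hk : 3 ≤ k) : 4 * 2 ^ k < (k.factorial) ^ 2 := by
  induction k, hk using Nat.le_induction with
  | base => decide
  | succ k hk ih =>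
    rw [Nat.factorial_succ, mul_pow, pow_succ]
    have h1 : 2 ≤ (k + 1) ^ 2 := by nlinarith
    calc 4 * (2 ^ k * 2) = 2 * (4 * 2 ^ k) := by ring
      _ < 2 * (k.factorial) ^ 2 := by omega
      _ ≤ (k + 1) ^ 2 * (k.factorial) ^ 2 := Nat.mul_le_mul_right _ h1

/-- Erdős 1947 -/
theorem erdos_lower {k : ℕ} (hk : 3 ≤ k) : 2 ^ k < (R k k) ^ 2 := by
  by_contra h
  rw [not_lt] at h
  have hlt : R k k < R k k := by
    apply lt_R_of_count
    set n := R k k with hn
    have h1 : n.choose k * k.factorial ≤ n ^ k := by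
      rw [mul_comm, ← Nat.descFactorial_eq_factorial_mul_choose]
      exact Nat.descFactorial_le_pow n k
    have h2 : (n.choose k * k.factorial) ^ 2 ≤ (2 ^ k) ^ k := by
      calc (n.choose k * k.factorial) ^ 2 ≤ (n ^ k) ^ 2 := Nat.pow_le_pow_left h1 2
        _ = (n ^ 2) ^ k := by rw [← pow_mul, ← pow_mul, mul_comm]
        _ ≤ (2 ^ k) ^ k := Nat.pow_le_pow_left h k
    have h3 : (2 ^ k) ^ k = (2 ^ (k.choose 2)) ^ 2 * 2 ^ k := by
      rw [← pow_mul, ← pow_mul, ← pow_add]
      congr 1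
      have h4 : k.choose 2 * 2 = k * (k - 1) := by
        rw [Nat.choose_two_right]
        exact Nat.div_mul_cancel (Nat.even_mul_pred_self k).two_dvd
      obtain ⟨m, rfl⟩ : ∃ m, k = m + 1 := ⟨k - 1, by omega⟩
      rw [h4]
      simp
      ring
    have h5 := four_mul_two_pow_lt hk
    have h6 : (2 * n.choose k) ^ 2 < (2 ^ (k.choose 2)) ^ 2 := by
      by_contra h7
      rw [not_lt] at h7
      have hp : 0 < (2 ^ (k.choose 2)) ^ 2 := by positivity
      have h8 : (2 ^ (k.choose 2)) ^ 2 * (4 * 2 ^ k) < (2 ^ (k.choose 2)) ^ 2 * (k.factorial) ^ 2 :=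
        Nat.mul_lt_mul_of_pos_left h5 hp
      have h9 : (2 ^ (k.choose 2)) ^ 2 * (k.factorial) ^ 2 ≤
          (2 * n.choose k) ^ 2 * (k.factorial) ^ 2 := Nat.mul_le_mul_right _ h7
      have h10 : (2 * n.choose k) ^ 2 * (k.factorial) ^ 2 = 4 * (n.choose k * k.factorial) ^ 2 := by
        ring
      have h11 : (2 ^ (k.choose 2)) ^ 2 * (4 * 2 ^ k) = 4 * ((2 ^ (k.choose 2)) ^ 2 * 2 ^ k) := by
        ring
      rw [h11, ← h3] at h8
      omega
    exact lt_of_pow_lt_pow_left₀ 2 (Nat.zero_le _) h6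
  exact lt_irrefl _ hlt

end Pool.Agent.H818R2.Ram
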