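import Pool.Agent.H818R2.Ram.Ineq
import Pool.Agent.H818R2.Ram.Erdos

/-! Real estimates: bounded ratios of Ramsey numbers. -/

open Finset

namespace Pool.Agent.H818R2.Ram

/-- `C(p+l,p) ≤ (q+1)^p (1+1/q)^l` -/
lemma choose_le_real (p l q : ℕ) (hq : 0 < q) :
    ((p + l).choose p : ℝ) ≤ ((q : ℝ) + 1) ^ p * (1 + 1 / (q : ℝ)) ^ l := by
  have hq' : (0 : ℝ) < q := by exact_mod_cast hq
  have h1 : (1 / (q : ℝ)) ^ p * ((p + l).choose p : ℝ) ≤ (1 / (q : ℝ) + 1) ^ (p + l) := by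
    rw [add_pow]
    have h2 := single_le_sum (f := fun m => (1 / (q : ℝ)) ^ m * 1 ^ (p + l - m) *
      ((p + l).choose m : ℝ)) (s := range (p + l + 1)) (fun m _ => by positivity)
      (mem_range.2 (by omega : p < p + l + 1))
    simpa using h2
  have h3 : ((p + l).choose p : ℝ) = (q : ℝ) ^ p * ((1 / (q : ℝ)) ^ p * ((p + l).choose p : ℝ)) := by
    rw [← mul_assoc, ← mul_pow, mul_one_div_cancel hq'.ne', one_pow, one_mul]
  rw [h3]
  calc (q : ℝ) ^ p * ((1 / (q : ℝ)) ^ p * ((p + l).choose p : ℝ))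
      ≤ (q : ℝ) ^ p * (1 / (q : ℝ) + 1) ^ (p + l) := mul_le_mul_of_nonneg_left h1 (by positivity)
    _ = ((q : ℝ) + 1) ^ p * (1 + 1 / (q : ℝ)) ^ l := by
      rw [pow_add, ← mul_assoc, ← mul_pow]
      congr 1
      · congr 1
        field_simp
        ring
      · rw [add_comm]

/-- the constant in the exponent -/
noncomputable def rho (q : ℕ) : ℝ := (1 + 1 / (q : ℝ)) ^ 2 * ((q : ℝ) * (q + 1)) ^ (1 / (q : ℝ))

/-- estimate of the sum over patterns -/
lemma sum_le_real (A : Finset ℕ) (l q M : ℕ) (hq : 0 < q) (hA : A.card ≤ M) (hl : l ≤ M) :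
    ((∑ P ∈ A.powerset.filter (fun P => q * P.card ≤ A.card), (P.card + l).choose P.card : ℕ) : ℝ) ≤
      rho q ^ M := by
  have hq' : (0 : ℝ) < q := by exact_mod_cast hq
  have hq1 : (1 : ℝ) ≤ q := by exact_mod_cast hq
  set B : ℝ := (q : ℝ) * (q + 1) with hB
  have hB1 : 1 ≤ B := by rw [hB]; nlinarith
  set r := A.card with hr
  have hterm : ∀ P ∈ A.powerset.filter (fun P => q * P.card ≤ A.card),
      ((P.card + l).choose P.card : ℝ) ≤
        (1 + 1 / (q : ℝ)) ^ l * B ^ ((r : ℝ) / q) * (1 / (q : ℝ)) ^ P.card := by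
    intro P hP
    rw [mem_filter] at hP
    have h1 := choose_le_real P.card l q hq
    have h2 : ((q : ℝ) + 1) ^ P.card = B ^ P.card * (1 / (q : ℝ)) ^ P.card := by
      rw [← mul_pow, hB]
      congr 1
      field_simp
    have h3 : B ^ P.card ≤ B ^ ((r : ℝ) / q) := by
      rw [← Real.rpow_natCast]
      apply Real.rpow_le_rpow_of_exponent_le hB1
      rw [le_div_iff₀ hq']
      have : (q : ℝ) * P.card ≤ r := by exact_mod_cast hP.2
      linarith
    calc ((P.card + l).choose P.card : ℝ) ≤ ((q : ℝ) + 1) ^ P.card * (1 + 1 / (q : ℝ)) ^ l := h1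
      _ = (1 + 1 / (q : ℝ)) ^ l * B ^ P.card * (1 / (q : ℝ)) ^ P.card := by rw [h2]; ring
      _ ≤ (1 + 1 / (q : ℝ)) ^ l * B ^ ((r : ℝ) / q) * (1 / (q : ℝ)) ^ P.card := by
        apply mul_le_mul_of_nonneg_right _ (by positivity)
        exact mul_le_mul_of_nonneg_left h3 (by positivity)
  push_cast
  calc ∑ P ∈ A.powerset.filter (fun P => q * P.card ≤ A.card), ((P.card + l).choose P.card : ℝ)
      ≤ ∑ P ∈ A.powerset.filter (fun P => q * P.card ≤ A.card),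
          (1 + 1 / (q : ℝ)) ^ l * B ^ ((r : ℝ) / q) * (1 / (q : ℝ)) ^ P.card := sum_le_sum hterm
    _ ≤ ∑ P ∈ A.powerset, (1 + 1 / (q : ℝ)) ^ l * B ^ ((r : ℝ) / q) * (1 / (q : ℝ)) ^ P.card := by
      apply sum_le_sum_of_subset_of_nonneg (filter_subset _ _)
      intro P _ _
      have := Real.rpow_nonneg (le_trans zero_le_one hB1) ((r : ℝ) / q)
      positivity
    _ = (1 + 1 / (q : ℝ)) ^ l * B ^ ((r : ℝ) / q) * (1 / (q : ℝ) + 1) ^ r := by
      rw [← mul_sum, ← sum_pow_mul_eq_add_pow]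
      simp
    _ ≤ (1 + 1 / (q : ℝ)) ^ M * B ^ ((M : ℝ) / q) * (1 + 1 / (q : ℝ)) ^ M := by
      have e1 : (1 : ℝ) ≤ 1 + 1 / (q : ℝ) := by
        have : 0 < 1 / (q : ℝ) := by positivity
        linarith
      have h1 : (1 + 1 / (q : ℝ)) ^ l ≤ (1 + 1 / (q : ℝ)) ^ M := pow_le_pow_right₀ e1 hl
      have h2 : (1 / (q : ℝ) + 1) ^ r ≤ (1 + 1 / (q : ℝ)) ^ M := by
        rw [add_comm]
        exact pow_le_pow_right₀ e1 hA
      have h3 : B ^ ((r : ℝ) / q) ≤ B ^ ((M : ℝ) / q) := by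
        apply Real.rpow_le_rpow_of_exponent_le hB1
        have : (r : ℝ) ≤ M := by exact_mod_cast hA
        gcongr
      have h4 := Real.rpow_nonneg (le_trans zero_le_one hB1) ((r : ℝ) / q)
      gcongr
    _ = rho q ^ M := by
      rw [rho, mul_pow, ← pow_mul, ← hB]
      have : B ^ ((M : ℝ) / q) = (B ^ (1 / (q : ℝ))) ^ M := by
        rw [← Real.rpow_natCast, ← Real.rpow_mul (le_trans zero_le_one hB1)]
        congr 1
        ring
      rw [this]
      ring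

/-- the dichotomy with real numbers -/
theorem dichotomy_real {k l q M : ℕ} (hk : 0 < k) (hl : 0 < l) (hq : 0 < q) (hkM : k ≤ M)
    (hlM : l ≤ M) (hlarge : (M : ℝ) + rho q ^ M ≤ R k l) :
    R k (l + 1) ≤ (q + 1) * R k l := by
  rcases dichotomy hk hl hq with h | ⟨A, hA, h⟩
  · exact h
  have h1 := sum_le_real A l q M hq (by omega) hlM
  have h2 : ((R k (l + 1) : ℕ) : ℝ) ≤ ((q + 1) * R k l : ℕ) := by
    calc ((R k (l + 1) : ℕ) : ℝ) ≤ (((q + 1) * (k + ∑ P ∈ A.powerset.filter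
          (fun P => q * P.card ≤ A.card), (P.card + l).choose P.card) : ℕ) : ℝ) := by
          exact_mod_cast h
      _ = ((q : ℝ) + 1) * ((k : ℝ) + ((∑ P ∈ A.powerset.filter
          (fun P => q * P.card ≤ A.card), (P.card + l).choose P.card : ℕ) : ℝ)) := by
          push_cast; ring
      _ ≤ ((q : ℝ) + 1) * ((M : ℝ) + rho q ^ M) := by
          have : (k : ℝ) ≤ M := by exact_mod_cast hkM
          gcongr
      _ ≤ ((q : ℝ) + 1) * R k l := by gcongr
      _ = ((q + 1) * R k l : ℕ) := by push_cast; ring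
  exact_mod_cast h2

/-- `R(k,l+1) ≤ k R(k,l)` -/
lemma R_succ_le' {k l : ℕ} (hk : 0 < k) (hl : 0 < l) : R k (l + 1) ≤ k * R k l := by
  have h1 := R_succ_le hk hl
  have h2 := R_pos hk hl
  obtain ⟨m, rfl⟩ : ∃ m, k = m + 1 := ⟨k - 1, by omega⟩
  rw [Nat.add_sub_cancel] at h1
  have h3 : (m + 1) * R (m + 1) l = m * R (m + 1) l + R (m + 1) l := by ring
  omega

/-! ### The diagonal -/

lemma rho_25 : rho 25 ≤ 1.402 := by
  unfold rho
  have h1 : ((25 : ℕ) : ℝ) * (((25 : ℕ) : ℝ) + 1) ≤ (1.2962 : ℝ) ^ 25 := by norm_num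
  have h2 : (((25 : ℕ) : ℝ) * (((25 : ℕ) : ℝ) + 1)) ^ (1 / ((25 : ℕ) : ℝ)) ≤ 1.2962 := by
    calc (((25 : ℕ) : ℝ) * (((25 : ℕ) : ℝ) + 1)) ^ (1 / ((25 : ℕ) : ℝ))
        ≤ ((1.2962 : ℝ) ^ 25) ^ (1 / ((25 : ℕ) : ℝ)) :=
          Real.rpow_le_rpow (by positivity) h1 (by positivity)
      _ = 1.2962 := by
        rw [← Real.rpow_natCast, ← Real.rpow_mul (by norm_num)]
        norm_num
  calc (1 + 1 / ((25 : ℕ) : ℝ)) ^ 2 * (((25 : ℕ) : ℝ) * (((25 : ℕ) : ℝ) + 1)) ^ (1 / ((25 : ℕ) : ℝ))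
      ≤ (1 + 1 / ((25 : ℕ) : ℝ)) ^ 2 * 1.2962 := mul_le_mul_of_nonneg_left h2 (by positivity)
    _ ≤ 1.402 := by norm_num

lemma pow_1402 {k : ℕ} (hk : 27 ≤ k) : (k : ℝ) + 1.402 ^ k ≤ 1.4142 ^ k := by
  induction k, hk using Nat.le_induction with
  | base => norm_num
  | succ k hk ih =>
    have hk' : (27 : ℝ) ≤ k := by exact_mod_cast hk
    have h1 : (0 : ℝ) ≤ 1.402 ^ k := by positivity
    push_cast
    rw [pow_succ, pow_succ]
    nlinarith

lemma lower_real {k : ℕ} (hk : 3 ≤ k) : (1.4142 : ℝ) ^ k ≤ R k k := by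
  have h := erdos_lower hk
  have h1 : (2 : ℝ) ^ k < (R k k : ℝ) ^ 2 := by exact_mod_cast h
  have h2 : ((1.4142 : ℝ) ^ k) ^ 2 ≤ (2 : ℝ) ^ k := by
    rw [← pow_mul, mul_comm, pow_mul]
    exact pow_le_pow_left₀ (by positivity) (by norm_num) k
  exact (lt_of_pow_lt_pow_left₀ 2 (Nat.cast_nonneg _) (lt_of_le_of_lt h2 h1)).le

/-- `R(k,k+1) ≤ 26 R(k,k)` -/
theorem diag_ratio {k : ℕ} (hk : 1 ≤ k) : R k (k + 1) ≤ 26 * R k k := by
  rcases lt_or_ge k 27 with h | h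
  · have h1 := R_succ_le' (k := k) (l := k) hk hk
    exact h1.trans (Nat.mul_le_mul_right _ (by omega))
  · have h1 : (k : ℝ) + rho 25 ^ k ≤ R k k := by
      have h2 : rho 25 ^ k ≤ 1.402 ^ k := by
        apply pow_le_pow_left₀ _ rho_25
        unfold rho
        positivity
      have h3 := pow_1402 h
      have h4 := lower_real (k := k) (by omega)
      linarith
    have := dichotomy_real (k := k) (l := k) (q := 25) (M := k) hk hk (by norm_num) le_rfl le_rfl h1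
    simpa using this

/-- `R(k+1,k+1) ≤ 52 R(k,k)` -/
theorem diag_ratio2 {k : ℕ} (hk : 1 ≤ k) : R (k + 1) (k + 1) ≤ 52 * R k k := by
  have h1 := R_rec (k := k) (l := k) hk hk
  rw [R_symm (k + 1) k] at h1
  have h2 := diag_ratio hk
  omega

end Pool.Agent.H818R2.Ram
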