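import Pool.Agent.H818R2.Ram.Defs

/-! Basic facts on Ramsey numbers. -/

open Finset

namespace Pool.Agent.H818R2.Ram

variable {V : Type*} [DecidableEq V]

/-- red clique of size `a` inside `U` -/
def HasRed (G : SimpleGraph V) (U : Finset V) (a : ℕ) : Prop := ∃ s ⊆ U, G.IsNClique a s

/-- blue clique of size `b` inside `U` -/
def HasBlue (G : SimpleGraph V) (U : Finset V) (b : ℕ) : Prop := ∃ s ⊆ U, Gᶜ.IsNClique b s

lemma HasRed.mono {G : SimpleGraph V} {U W : Finset V} {a : ℕ} (h : HasRed G U a) (hUW : U ⊆ W) :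
    HasRed G W a := by
  obtain ⟨s, hs, h⟩ := h
  exact ⟨s, hs.trans hUW, h⟩

lemma HasBlue.mono {G : SimpleGraph V} {U W : Finset V} {a : ℕ} (h : HasBlue G U a) (hUW : U ⊆ W) :
    HasBlue G W a := by
  obtain ⟨s, hs, h⟩ := h
  exact ⟨s, hs.trans hUW, h⟩

lemma hasRed_succ {G : SimpleGraph V} {U W : Finset V} {a : ℕ} {v : V} (hv : v ∈ W) (hU : U ⊆ W)
    (hadj : ∀ u ∈ U, G.Adj v u) (h : HasRed G U a) : HasRed G W (a + 1) := by
  obtain ⟨s, hs, hc⟩ := h
  refine ⟨insert v s, insert_subset hv (hs.trans hU), ?_⟩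
  exact hc.insert fun u hu => hadj u (hs hu)

lemma hasBlue_succ {G : SimpleGraph V} {U W : Finset V} {a : ℕ} {v : V} (hv : v ∈ W) (hU : U ⊆ W)
    (hadj : ∀ u ∈ U, Gᶜ.Adj v u) (h : HasBlue G U a) : HasBlue G W (a + 1) := by
  obtain ⟨s, hs, hc⟩ := h
  refine ⟨insert v s, insert_subset hv (hs.trans hU), ?_⟩
  exact hc.insert fun u hu => hadj u (hs hu)

lemma hasRed_one {G : SimpleGraph V} {U : Finset V} (h : U.Nonempty) : HasRed G U 1 := by
  obtain ⟨v, hv⟩ := h
  refine ⟨{v}, by simpa using hv, ?_⟩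
  rw [SimpleGraph.isNClique_iff]
  simp

lemma hasBlue_one {G : SimpleGraph V} {U : Finset V} (h : U.Nonempty) : HasBlue G U 1 := by
  obtain ⟨v, hv⟩ := h
  refine ⟨{v}, by simpa using hv, ?_⟩
  rw [SimpleGraph.isNClique_iff]
  simp

/-- Erdős–Szekeres: `R(a+1,b+1) ≤ C(a+b,a)`. -/
lemma erdos_szekeres (G : SimpleGraph V) [DecidableRel G.Adj] : ∀ (N a b : ℕ), a + b = N →
    ∀ U : Finset V, (a + b).choose a ≤ U.card → HasRed G U (a + 1) ∨ HasBlue G U (b + 1) := by
  intro N
  induction N using Nat.strong_induction_on with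
  | _ N ih =>
    intro a b hab U hU
    have hpos : 0 < (a + b).choose a := Nat.choose_pos (Nat.le_add_right a b)
    have hUne : U.Nonempty := card_pos.1 (lt_of_lt_of_le hpos hU)
    rcases Nat.eq_zero_or_pos a with ha | ha
    · subst ha
      exact Or.inl (hasRed_one hUne)
    rcases Nat.eq_zero_or_pos b with hb | hb
    · subst hb
      exact Or.inr (hasBlue_one hUne)
    obtain ⟨v, hv⟩ := hUne
    set Nr := U.filter (fun u => G.Adj v u) with hNr
    set Nb := U.filter (fun u => ¬ G.Adj v u ∧ u ≠ v) with hNb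
    have hcard : U.card ≤ Nr.card + Nb.card + 1 := by
      have : U ⊆ insert v (Nr ∪ Nb) := by
        intro u hu
        by_cases h1 : u = v
        · rw [h1]; exact mem_insert_self _ _
        · apply mem_insert_of_mem
          rw [mem_union, hNr, hNb, mem_filter, mem_filter]
          by_cases h2 : G.Adj v u
          · exact Or.inl ⟨hu, h2⟩
          · exact Or.inr ⟨hu, h2, h1⟩
      refine (card_le_card this).trans ((card_insert_le _ _).trans ?_)
      exact Nat.succ_le_succ (card_union_le _ _)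
    obtain ⟨a', rfl⟩ : ∃ a', a = a' + 1 := ⟨a - 1, by omega⟩
    obtain ⟨b', rfl⟩ : ∃ b', b = b' + 1 := ⟨b - 1, by omega⟩
    have hpas : (a' + 1 + (b' + 1)).choose (a' + 1) =
        (a' + (b' + 1)).choose a' + (a' + 1 + b').choose (a' + 1) := by
      rw [show a' + 1 + (b' + 1) = (a' + b' + 1) + 1 by ring, Nat.choose_succ_succ]
      congr 2
      ring_nf
    rcases le_or_gt ((a' + (b' + 1)).choose a') Nr.card with h1 | h1
    · rcases ih (a' + (b' + 1)) (by omega) a' (b' + 1) rfl Nr h1 with h2 | h2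
      · left
        exact hasRed_succ hv (filter_subset _ _) (fun u hu => (mem_filter.1 hu).2) h2
      · right
        exact h2.mono (filter_subset _ _)
    · have h3 : (a' + 1 + b').choose (a' + 1) ≤ Nb.card := by
        rw [hpas] at hU
        omega
      rcases ih (a' + 1 + b') (by omega) (a' + 1) b' rfl Nb h3 with h2 | h2
      · left
        exact h2.mono (filter_subset _ _)
      · right
        refine hasBlue_succ hv (filter_subset _ _) (fun u hu => ?_) h2
        rw [SimpleGraph.compl_adj]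
        obtain ⟨-, h4, h5⟩ := mem_filter.1 hu
        exact ⟨fun h => h5 h.symm, h4⟩

/-- pull back along an embedding -/
lemma arrows_embed {n k l : ℕ} (h : Arrows n k l) (G : SimpleGraph V) (U : Finset V)
    (hU : n ≤ U.card) : HasRed G U k ∨ HasBlue G U l := by
  classical
  obtain ⟨W, hWU, hW⟩ := exists_subset_card_eq hU
  set e : Fin n ↪ V := (W.equivFinOfCardEq hW).symm.toEmbedding.trans (Function.Embedding.subtype _)
    with he
  have hmem : ∀ i, e i ∈ U := fun i => hWU ((W.equivFinOfCardEq hW).symm i).2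
  rcases h (G.comap e) with ⟨s, hs⟩ | ⟨s, hs⟩
  · left
    refine ⟨s.map e, fun x hx => ?_, ?_⟩
    · obtain ⟨i, -, rfl⟩ := mem_map.1 hx
      exact hmem i
    · rw [SimpleGraph.isNClique_iff] at hs ⊢
      refine ⟨?_, by rw [card_map]; exact hs.2⟩
      intro x hx y hy hxy
      rw [mem_coe, mem_map] at hx hy
      obtain ⟨i, hi, rfl⟩ := hx
      obtain ⟨j, hj, rfl⟩ := hy
      have hij : i ≠ j := fun h => hxy (by rw [h])
      exact hs.1 hi hj hij
  · right
    refine ⟨s.map e, fun x hx => ?_, ?_⟩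
    · obtain ⟨i, -, rfl⟩ := mem_map.1 hx
      exact hmem i
    · rw [SimpleGraph.isNClique_iff] at hs ⊢
      refine ⟨?_, by rw [card_map]; exact hs.2⟩
      intro x hx y hy hxy
      rw [mem_coe, mem_map] at hx hy
      obtain ⟨i, hi, rfl⟩ := hx
      obtain ⟨j, hj, rfl⟩ := hy
      have hij : i ≠ j := fun h => hxy (by rw [h])
      have h1 := hs.1 hi hj hij
      rw [SimpleGraph.compl_adj] at h1 ⊢
      exact ⟨hxy, h1.2⟩

lemma arrows_choose (a b : ℕ) : Arrows ((a + b).choose a) (a + 1) (b + 1) := by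
  classical
  intro G
  rcases erdos_szekeres G (a + b) a b rfl univ (by rw [card_univ, Fintype.card_fin]) with h | h
  · obtain ⟨s, -, hs⟩ := h
    exact Or.inl ⟨s, hs⟩
  · obtain ⟨s, -, hs⟩ := h
    exact Or.inr ⟨s, hs⟩

lemma arrows_exists (k l : ℕ) : ∃ n, Arrows n k l := by
  rcases Nat.eq_zero_or_pos k with hk | hk
  · subst hk
    exact ⟨0, fun G => Or.inl ⟨∅, by rw [SimpleGraph.isNClique_iff]; simp⟩⟩
  rcases Nat.eq_zero_or_pos l with hl | hl
  · subst hl
    exact ⟨0, fun G => Or.inr ⟨∅, by rw [SimpleGraph.isNClique_iff]; simp⟩⟩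
  obtain ⟨a, rfl⟩ : ∃ a, k = a + 1 := ⟨k - 1, by omega⟩
  obtain ⟨b, rfl⟩ : ∃ b, l = b + 1 := ⟨l - 1, by omega⟩
  exact ⟨_, arrows_choose a b⟩

lemma arrows_R (k l : ℕ) : Arrows (R k l) k l := Nat.sInf_mem (arrows_exists k l)

lemma R_le {n k l : ℕ} (h : Arrows n k l) : R k l ≤ n := Nat.sInf_le h

lemma R_succ_le_choose (a b : ℕ) : R (a + 1) (b + 1) ≤ (a + b).choose a := R_le (arrows_choose a b)

/-- a colouring witnessing `n < R k l` -/
lemma exists_coloring {n k l : ℕ} (h : n < R k l) : ∃ G : SimpleGraph (Fin n),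
    ¬ HasRed G univ k ∧ ¬ HasBlue G univ l := by
  have h1 : ¬ Arrows n k l := fun hh => absurd (R_le hh) (not_le.2 h)
  unfold Arrows at h1
  push Not at h1
  obtain ⟨G, h2, h3⟩ := h1
  exact ⟨G, fun ⟨s, _, hs⟩ => h2 s hs, fun ⟨s, _, hs⟩ => h3 s hs⟩

/-- cliques of smaller size -/
lemma HasRed.le {G : SimpleGraph V} {U : Finset V} {a b : ℕ} (h : HasRed G U b) (hab : a ≤ b) :
    HasRed G U a := by
  obtain ⟨s, hs, hc⟩ := h
  rw [SimpleGraph.isNClique_iff] at hc
  obtain ⟨t, hts, ht⟩ := exists_subset_card_eq (by rw [hc.2]; exact hab : a ≤ s.card)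
  refine ⟨t, hts.trans hs, ?_⟩
  rw [SimpleGraph.isNClique_iff]
  exact ⟨hc.1.subset (by exact_mod_cast hts), ht⟩

lemma HasBlue.le {G : SimpleGraph V} {U : Finset V} {a b : ℕ} (h : HasBlue G U b) (hab : a ≤ b) :
    HasBlue G U a := by
  obtain ⟨s, hs, hc⟩ := h
  rw [SimpleGraph.isNClique_iff] at hc
  obtain ⟨t, hts, ht⟩ := exists_subset_card_eq (by rw [hc.2]; exact hab : a ≤ s.card)
  refine ⟨t, hts.trans hs, ?_⟩
  rw [SimpleGraph.isNClique_iff]
  exact ⟨hc.1.subset (by exact_mod_cast hts), ht⟩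

lemma R_mono {k k' l l' : ℕ} (hk : k ≤ k') (hl : l ≤ l') : R k l ≤ R k' l' := by
  classical
  apply R_le
  intro G
  rcases arrows_R k' l' G with ⟨s, hs⟩ | ⟨s, hs⟩
  · obtain ⟨t, -, ht⟩ := HasRed.le (G := G) (U := univ) ⟨s, subset_univ _, hs⟩ hk
    exact Or.inl ⟨t, ht⟩
  · obtain ⟨t, -, ht⟩ := HasBlue.le (G := G) (U := univ) ⟨s, subset_univ _, hs⟩ hl
    exact Or.inr ⟨t, ht⟩

lemma R_symm (k l : ℕ) : R k l = R l k := by
  have key : ∀ k l, R k l ≤ R l k := by
    intro k l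
    apply R_le
    intro G
    rcases arrows_R l k Gᶜ with ⟨s, hs⟩ | ⟨s, hs⟩
    · exact Or.inr ⟨s, hs⟩
    · rw [compl_compl] at hs
      exact Or.inl ⟨s, hs⟩
  exact le_antisymm (key k l) (key l k)

lemma R_pos {k l : ℕ} (hk : 0 < k) (hl : 0 < l) : 0 < R k l := by
  rw [Nat.pos_iff_ne_zero]
  intro h0
  have h := arrows_R k l
  rw [h0] at h
  rcases h ⊥ with ⟨s, hs⟩ | ⟨s, hs⟩
  · have := hs.card_eq
    have h2 : s = ∅ := by ext x; exact x.elim0
    rw [h2, card_empty] at this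
    omega
  · have := hs.card_eq
    have h2 : s = ∅ := by ext x; exact x.elim0
    rw [h2, card_empty] at this
    omega

/-- `R(k+1,l+1) ≤ R(k,l+1) + R(k+1,l)` -/
lemma R_rec {k l : ℕ} (hk : 0 < k) (hl : 0 < l) : R (k + 1) (l + 1) ≤ R k (l + 1) + R (k + 1) l := by
  classical
  apply R_le
  intro G
  have hpos : 0 < R k (l + 1) + R (k + 1) l := by
    have h9 : 0 < R k (l + 1) := R_pos hk (Nat.succ_pos l)
    omega
  set v : Fin (R k (l + 1) + R (k + 1) l) := ⟨0, hpos⟩ with hv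
  set Nr := univ.filter (fun u => G.Adj v u) with hNr
  set Nb := univ.filter (fun u => ¬ G.Adj v u ∧ u ≠ v) with hNb
  have hcard : R k (l + 1) + R (k + 1) l ≤ Nr.card + Nb.card + 1 := by
    have : (univ : Finset (Fin (R k (l + 1) + R (k + 1) l))) ⊆ insert v (Nr ∪ Nb) := by
      intro u hu
      by_cases h1 : u = v
      · rw [h1]; exact mem_insert_self _ _
      · apply mem_insert_of_mem
        rw [mem_union, hNr, hNb, mem_filter, mem_filter]
        by_cases h2 : G.Adj v u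
        · exact Or.inl ⟨hu, h2⟩
        · exact Or.inr ⟨hu, h2, h1⟩
    have h3 := card_le_card this
    rw [card_univ, Fintype.card_fin] at h3
    refine h3.trans ((card_insert_le _ _).trans ?_)
    exact Nat.succ_le_succ (card_union_le _ _)
  rcases le_or_gt (R k (l + 1)) Nr.card with h1 | h1
  · rcases arrows_embed (arrows_R k (l + 1)) G Nr h1 with h2 | h2
    · obtain ⟨s, -, hs⟩ := hasRed_succ (mem_univ v) (subset_univ Nr)
        (fun u hu => (mem_filter.1 hu).2) h2
      exact Or.inl ⟨s, hs⟩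
    · obtain ⟨s, -, hs⟩ := h2
      exact Or.inr ⟨s, hs⟩
  · have h3 : R (k + 1) l ≤ Nb.card := by omega
    rcases arrows_embed (arrows_R (k + 1) l) G Nb h3 with h2 | h2
    · obtain ⟨s, -, hs⟩ := h2
      exact Or.inl ⟨s, hs⟩
    · obtain ⟨s, -, hs⟩ := hasBlue_succ (mem_univ v) (subset_univ Nb) (fun u hu => by
        rw [SimpleGraph.compl_adj]
        obtain ⟨-, h4, h5⟩ := mem_filter.1 hu
        exact ⟨fun h => h5 h.symm, h4⟩) h2
      exact Or.inr ⟨s, hs⟩

end Pool.Agent.H818R2.Ram
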