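import Mathlib

/-! Graph Ramsey numbers: definitions (MP_28724c_co). -/

namespace Pool.Agent.H818R2.Ram

/-- Every colouring of the edges of the complete graph on `n` vertices with two colours (the edges of
`G` are red, those of its complement are blue) contains a red `K_k` or a blue `K_l`. -/
def Arrows (n k l : ℕ) : Prop :=
  ∀ G : SimpleGraph (Fin n), (∃ s : Finset (Fin n), G.IsNClique k s) ∨
    (∃ s : Finset (Fin n), Gᶜ.IsNClique l s)

/-- The Ramsey number `R(k,l)`: the least `n` with `Arrows n k l`. -/
noncomputable def R (k l : ℕ) : ℕ := sInf {n : ℕ | Arrows n k l}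

/-- `log R(k,k) / k` -/
noncomputable def diagRate (k : ℕ) : ℝ := Real.log (R k k) / k

/-- `log R(k,⌈λ k⌉) / k` -/
noncomputable def offRate (lam : ℝ) (k : ℕ) : ℝ := Real.log (R k ⌈lam * k⌉₊) / k

end Pool.Agent.H818R2.Ram
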