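import Pool.Agent.H818R2.Ram.Final

/-! Positive proportion of large ratios; near-diagonal growth; critical colourings. -/

open Filter Set Topology

namespace Pool.Agent.H818R2.Ram

lemma R_isLeast (k l : ℕ) : IsLeast {n : ℕ | Arrows n k l} (R k l) :=
  ⟨arrows_R k l, fun _ hn => R_le hn⟩

/-- telescoping with a count of large steps -/
lemma telescoping {N : ℕ} (hN : 1 ≤ N) :
    Real.log (R N N) ≤ ((((Finset.Ico 1 N).filter
      (fun k => 2 * (R k k) ^ 4 ≤ (R (k + 1) (k + 1)) ^ 4)).card : ℕ) : ℝ) *
        (Real.log 52 - Real.log 2 / 4) + ((N : ℝ) - 1) * (Real.log 2 / 4) := by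
  classical
  induction N, hN using Nat.le_induction with
  | base =>
    have h1 : R 1 1 = 1 := by
      have h2 := R_succ_le_choose 0 0
      have h3 := R_pos (k := 1) (l := 1) Nat.one_pos Nat.one_pos
      simp at h2
      omega
    rw [h1]
    simp
  | succ N hN ih =>
    have hRpos : (0 : ℝ) < R N N := by exact_mod_cast R_pos (k := N) (l := N) hN hN
    have hRpos' : (0 : ℝ) < R (N + 1) (N + 1) := by
      exact_mod_cast R_pos (k := N + 1) (l := N + 1) (by omega) (by omega)
    have hins : Finset.Ico 1 (N + 1) = insert N (Finset.Ico 1 N) := by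
      ext x
      simp only [Finset.mem_insert, Finset.mem_Ico]
      omega
    rw [hins, Finset.filter_insert]
    split_ifs with hgood
    · rw [Finset.card_insert_of_notMem (by simp)]
      have h1 : (R (N + 1) (N + 1) : ℝ) ≤ 52 * R N N := by exact_mod_cast diag_ratio2 hN
      have h2 := Real.log_le_log hRpos' h1
      rw [Real.log_mul (by norm_num) hRpos.ne'] at h2
      push_cast
      linarith
    · have h1 : (R (N + 1) (N + 1) : ℝ) ^ 4 ≤ 2 * (R N N : ℝ) ^ 4 := by
        rw [not_le] at hgood
        exact_mod_cast hgood.le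
      have h2 := Real.log_le_log (by positivity) h1
      rw [Real.log_mul (by norm_num) (by positivity), Real.log_pow, Real.log_pow] at h2
      push_cast at h2 ⊢
      linarith

/-- at least `N/22` of the `k < N` satisfy `R(k+1,k+1) ≥ 2^(1/4) R(k,k)` -/
theorem proportion {N : ℕ} (hN : 3 ≤ N) :
    N ≤ 22 * ((Finset.Ico 1 N).filter
      (fun k => 2 * (R k k) ^ 4 ≤ (R (k + 1) (k + 1)) ^ 4)).card := by
  classical
  have h1 := telescoping (N := N) (by omega)
  set g := ((Finset.Ico 1 N).filter (fun k => 2 * (R k k) ^ 4 ≤ (R (k + 1) (k + 1)) ^ 4)).card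
    with hg
  have h2 := erdos_lower hN
  have h3 : (2 : ℝ) ^ N ≤ (R N N : ℝ) ^ 2 := by exact_mod_cast h2.le
  have h4 := Real.log_le_log (by positivity) h3
  rw [Real.log_pow, Real.log_pow] at h4
  push_cast at h4
  have hN' : (3 : ℝ) ≤ N := by exact_mod_cast hN
  have h5 : Real.log 52 ≤ (23 / 4) * Real.log 2 := by
    have h6 : (52 : ℝ) ^ 4 ≤ 2 ^ 23 := by norm_num
    have h7 := Real.log_le_log (by positivity) h6
    rw [Real.log_pow, Real.log_pow] at h7
    push_cast at h7
    linarith
  have hlog2 : 0 < Real.log 2 := Real.log_pos (by norm_num)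
  have hg0 : (0 : ℝ) ≤ g := Nat.cast_nonneg g
  have h8 : (N : ℝ) / 2 * Real.log 2 ≤ g * (11 / 2 * Real.log 2) + N * (Real.log 2 / 4) := by
    have h9 : (g : ℝ) * (Real.log 52 - Real.log 2 / 4) ≤ g * (11 / 2 * Real.log 2) := by
      apply mul_le_mul_of_nonneg_left _ hg0
      linarith
    nlinarith
  have h10 : (N : ℝ) ≤ 22 * g := by
    by_contra hcon
    rw [not_le] at hcon
    nlinarith
  exact_mod_cast h10

/-- near the diagonal -/
theorem near_diag {k l : ℕ} (hk : 1 ≤ k) (hl : 1 ≤ l) :
    |Real.log (R k l) - Real.log (R k k)| ≤ Real.log 52 * |(l : ℝ) - k| := by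
  have hRkk : (0 : ℝ) < R k k := by exact_mod_cast R_pos (k := k) (l := k) hk hk
  have hRll : (0 : ℝ) < R l l := by exact_mod_cast R_pos (k := l) (l := l) hl hl
  have hRkl : (0 : ℝ) < R k l := by exact_mod_cast R_pos (k := k) (l := l) hk hl
  have h52 : 0 ≤ Real.log 52 := Real.log_nonneg (by norm_num)
  rcases le_total k l with h | h
  · have h1 : Real.log (R k k) ≤ Real.log (R k l) :=
      Real.log_le_log hRkk (by exact_mod_cast R_mono le_rfl h)
    have h2 : Real.log (R k l) ≤ Real.log (R l l) :=
      Real.log_le_log hRkl (by exact_mod_cast R_mono h le_rfl)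
    have h3 : (R l l : ℝ) ≤ 52 ^ (l - k) * R k k := by exact_mod_cast R_diag_le_pow hk h
    have h4 := Real.log_le_log hRll h3
    rw [Real.log_mul (by positivity) hRkk.ne', Real.log_pow, Nat.cast_sub h] at h4
    have h5 : (0 : ℝ) ≤ (l : ℝ) - k := by
      have : (k : ℝ) ≤ l := by exact_mod_cast h
      linarith
    rw [abs_of_nonneg h5, abs_le]
    constructor
    · nlinarith
    · nlinarith
  · have h1 : Real.log (R k l) ≤ Real.log (R k k) :=
      Real.log_le_log hRkl (by exact_mod_cast R_mono le_rfl h)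
    have h2 : Real.log (R l l) ≤ Real.log (R k l) :=
      Real.log_le_log hRll (by exact_mod_cast R_mono h le_rfl)
    have h3 : (R k k : ℝ) ≤ 52 ^ (k - l) * R l l := by exact_mod_cast R_diag_le_pow hl h
    have h4 := Real.log_le_log hRkk h3
    rw [Real.log_mul (by positivity) hRll.ne', Real.log_pow, Nat.cast_sub h] at h4
    have h5 : (l : ℝ) - k ≤ 0 := by
      have : (l : ℝ) ≤ k := by exact_mod_cast h
      linarith
    rw [abs_of_nonpos h5, abs_le]
    constructor
    · nlinarith
    · nlinarith

end Pool.Agent.H818R2.Ram
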