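import Pool.Agent.H818R2.Ram.Uniform

/-! Consequences for the growth rate of the diagonal Ramsey numbers. -/

open Filter Set Topology

namespace Pool.Agent.H818R2.Ram

/-- weak form of the diagonal conjecture -/
theorem weak_diagonal {k l : ℕ} (hk : 2 ≤ k) (hkl : k ≤ l) :
    (R (k - 1) (l + 1) : ℝ) ≤ 2050 * R k l := by
  have h1 : R (k - 1) (l + 1) ≤ R k (l + 1) := R_mono (Nat.sub_le _ _) le_rfl
  have h1' : (R (k - 1) (l + 1) : ℝ) ≤ R k (l + 1) := by exact_mod_cast h1
  have h2 := uniform (k := k) (l := l) (by omega) (by omega)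
  have h3 : (k : ℝ) / l ≤ 1 := by
    have hl : (0 : ℝ) < l := by
      have : 0 < l := by omega
      exact_mod_cast this
    rw [div_le_one hl]
    exact_mod_cast hkl
  have h4 : (0 : ℝ) ≤ R k l := Nat.cast_nonneg _
  calc (R (k - 1) (l + 1) : ℝ) ≤ R k (l + 1) := h1'
    _ ≤ 1025 * (1 + (k : ℝ) / l) * R k l := h2
    _ ≤ 1025 * (1 + 1) * R k l := by gcongr
    _ = 2050 * R k l := by ring

lemma R_diag_le_pow {k m : ℕ} (hk : 1 ≤ k) (hkm : k ≤ m) : R m m ≤ 52 ^ (m - k) * R k k := by
  induction m, hkm using Nat.le_induction with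
  | base => simp
  | succ m hm ih =>
    have h1 := diag_ratio2 (k := m) (by omega)
    have h2 : m + 1 - k = (m - k) + 1 := by omega
    rw [h2, pow_succ]
    calc R (m + 1) (m + 1) ≤ 52 * R m m := h1
      _ ≤ 52 * (52 ^ (m - k) * R k k) := Nat.mul_le_mul_left _ ih
      _ = 52 ^ (m - k) * 52 * R k k := by ring

lemma log_R_nonneg {k l : ℕ} (hk : 1 ≤ k) (hl : 1 ≤ l) : 0 ≤ Real.log (R k l) :=
  Real.log_nonneg (by exact_mod_cast R_pos hk hl)

lemma log_R_diag_le {k : ℕ} (hk : 1 ≤ k) : Real.log (R k k) ≤ k * Real.log 4 := by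
  obtain ⟨a, rfl⟩ : ∃ a, k = a + 1 := ⟨k - 1, by omega⟩
  have h1 := R_succ_le_choose a a
  have h2 : (a + a).choose a ≤ 2 ^ (a + a) := Nat.choose_le_two_pow _ _
  have h3 : R (a + 1) (a + 1) ≤ 4 ^ (a + 1) := by
    calc R (a + 1) (a + 1) ≤ 2 ^ (a + a) := h1.trans h2
      _ = 4 ^ a := by rw [← two_mul, pow_mul]; norm_num
      _ ≤ 4 ^ (a + 1) := Nat.pow_le_pow_right (by norm_num) (Nat.le_succ a)
  have h4 : (R (a + 1) (a + 1) : ℝ) ≤ 4 ^ (a + 1) := by exact_mod_cast h3
  have h5 : (0 : ℝ) < R (a + 1) (a + 1) := by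
    exact_mod_cast R_pos (Nat.succ_pos a) (Nat.succ_pos a)
  have h6 := Real.log_le_log h5 h4
  rwa [Real.log_pow] at h6

/-- the exponents are Lipschitz on the logarithmic scale -/
theorem diagRate_lip {k m : ℕ} (hk : 1 ≤ k) (hkm : k ≤ m) :
    |diagRate m - diagRate k| ≤ Real.log 52 * (((m : ℝ) - k) / m) := by
  have hk' : (0 : ℝ) < k := by exact_mod_cast hk
  have hm' : (0 : ℝ) < m := by exact_mod_cast (by omega : 0 < m)
  have hkm' : (k : ℝ) ≤ m := by exact_mod_cast hkm
  have hRk : (0 : ℝ) < R k k := by exact_mod_cast R_pos (k := k) (l := k) hk hk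
  have hRm : (0 : ℝ) < R m m := by
    exact_mod_cast R_pos (k := m) (l := m) (by omega) (by omega)
  have hmono : Real.log (R k k) ≤ Real.log (R m m) := by
    apply Real.log_le_log hRk
    exact_mod_cast R_mono hkm hkm
  have hup : Real.log (R m m) ≤ ((m : ℝ) - k) * Real.log 52 + Real.log (R k k) := by
    have h1 : (R m m : ℝ) ≤ 52 ^ (m - k) * R k k := by exact_mod_cast R_diag_le_pow hk hkm
    have h2 := Real.log_le_log hRm h1
    rw [Real.log_mul (by positivity) hRk.ne', Real.log_pow, Nat.cast_sub hkm] at h2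
    exact h2
  have h4 := log_R_diag_le hk
  have h5 := log_R_nonneg hk hk
  have h6 : Real.log 4 ≤ Real.log 52 := Real.log_le_log (by norm_num) (by norm_num)
  have h7 : 0 ≤ ((m : ℝ) - k) / m := div_nonneg (by linarith) hm'.le
  have hdiv : Real.log (R k k) / k - Real.log (R k k) / m =
      (Real.log (R k k) / k) * (((m : ℝ) - k) / m) := by
    field_simp
  have hquot : Real.log (R k k) / k ≤ Real.log 4 := by
    rw [div_le_iff₀ hk']
    linarith
  have hquot0 : 0 ≤ Real.log (R k k) / k := div_nonneg h5 hk'.le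
  unfold diagRate
  rw [abs_le]
  constructor
  · have h8 : Real.log (R k k) / m ≤ Real.log (R m m) / m := by gcongr
    have h9 : (Real.log (R k k) / k) * (((m : ℝ) - k) / m) ≤
        Real.log 52 * (((m : ℝ) - k) / m) := by
      apply mul_le_mul_of_nonneg_right _ h7
      linarith
    linarith
  · have h8 : Real.log (R m m) / m ≤ (((m : ℝ) - k) * Real.log 52 + Real.log (R k k)) / m := by
      gcongr
    have h9 : (((m : ℝ) - k) * Real.log 52 + Real.log (R k k)) / m =
        Real.log 52 * (((m : ℝ) - k) / m) + Real.log (R k k) / m := by ring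
    have h10 : 0 ≤ (Real.log (R k k) / k) * (((m : ℝ) - k) / m) := mul_nonneg hquot0 h7
    linarith

lemma diagRate_nonneg (k : ℕ) : 0 ≤ diagRate k := by
  unfold diagRate
  exact div_nonneg (Real.log_natCast_nonneg _) (Nat.cast_nonneg _)

lemma diagRate_le (k : ℕ) : diagRate k ≤ Real.log 4 := by
  unfold diagRate
  rcases Nat.eq_zero_or_pos k with h | h
  · subst h
    simp only [Nat.cast_zero, div_zero]
    exact Real.log_nonneg (by norm_num)
  · have hk' : (0 : ℝ) < k := by exact_mod_cast h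
    rw [div_le_iff₀ hk', mul_comm]
    exact log_R_diag_le h

/-- stability: changing `k` by `o(k)` does not change the exponent -/
theorem diagRate_stable {d : ℕ → ℕ} (hd : Tendsto (fun k => (d k : ℝ) / k) atTop (𝓝 0)) :
    Tendsto (fun k => diagRate (k + d k) - diagRate k) atTop (𝓝 0) := by
  apply squeeze_zero_norm' (a := fun k => Real.log 52 * ((d k : ℝ) / k))
  · filter_upwards [eventually_ge_atTop 1] with k hk
    have hk' : (0 : ℝ) < k := by exact_mod_cast hk
    rw [Real.norm_eq_abs]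
    refine (diagRate_lip hk (Nat.le_add_right k (d k))).trans ?_
    have h52 : 0 ≤ Real.log 52 := Real.log_nonneg (by norm_num)
    apply mul_le_mul_of_nonneg_left _ h52
    push_cast
    rw [add_sub_cancel_left]
    have hd0 : (0 : ℝ) ≤ d k := Nat.cast_nonneg _
    gcongr
    linarith
  · simpa using hd.const_mul (Real.log 52)

lemma diagRate_diff : Tendsto (fun k => diagRate (k + 1) - diagRate k) atTop (𝓝 0) := by
  apply diagRate_stable (d := fun _ => 1)
  simpa using tendsto_one_div_atTop_nhds_zero_nat (𝕜 := ℝ)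

/-- limit points of a bounded sequence with vanishing increments -/
lemma clusterPts_eq {u : ℕ → ℝ} {a b : ℝ} (ha : ∀ n, a ≤ u n) (hb : ∀ n, u n ≤ b)
    (hu : Tendsto (fun n => u (n + 1) - u n) atTop (𝓝 0)) :
    {x | MapClusterPt x atTop u} = Icc (liminf u atTop) (limsup u atTop) := by
  have hbdd : IsBoundedUnder (· ≤ ·) atTop u := isBoundedUnder_of ⟨b, hb⟩
  have hbdd' : IsBoundedUnder (· ≥ ·) atTop u := isBoundedUnder_of ⟨a, ha⟩
  ext x
  rw [mem_ofPred_eq, mem_Icc]
  constructor
  · intro hx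
    rw [mapClusterPt_iff_frequently] at hx
    constructor
    · by_contra hcon
      rw [not_le] at hcon
      obtain ⟨y, hxy, hyl⟩ := exists_between hcon
      have h1 := eventually_lt_of_lt_liminf hyl
      have h2 := hx (Iio y) (Iio_mem_nhds hxy)
      obtain ⟨n, hn1, hn2⟩ := (h2.and_eventually h1).exists
      exact absurd hn1 (not_lt.2 hn2.le)
    · by_contra hcon
      rw [not_le] at hcon
      obtain ⟨y, hly, hyx⟩ := exists_between hcon
      have h1 := eventually_lt_of_limsup_lt hly
      have h2 := hx (Ioi y) (Ioi_mem_nhds hyx)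
      obtain ⟨n, hn1, hn2⟩ := (h2.and_eventually h1).exists
      exact absurd hn1 (not_lt.2 hn2.le)
  · rintro ⟨h1, h2⟩
    rw [mapClusterPt_iff_frequently]
    intro s hs
    obtain ⟨ε, hε, hεs⟩ := Metric.mem_nhds_iff.1 hs
    rw [frequently_atTop]
    intro N
    have h3 : ∀ᶠ n in atTop, |u (n + 1) - u n| < ε := by
      have := hu.eventually (Metric.ball_mem_nhds (0 : ℝ) hε)
      filter_upwards [this] with n hn
      rwa [Real.dist_eq, sub_zero] at hn
    obtain ⟨N', hN'⟩ := eventually_atTop.1 h3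
    have h4 : ∃ᶠ n in atTop, x - ε < u n := by
      apply frequently_lt_of_lt_limsup hbdd'.isCoboundedUnder_le
      linarith
    have h5 : ∃ᶠ n in atTop, u n < x + ε := by
      apply frequently_lt_of_liminf_lt hbdd.isCoboundedUnder_ge
      linarith
    obtain ⟨n1, hn1, hn1u⟩ := frequently_atTop.1 h4 (max N N')
    have hn1N : N ≤ n1 := (le_max_left _ _).trans hn1
    have hn1N' : N' ≤ n1 := (le_max_right _ _).trans hn1
    by_cases hlt : u n1 < x + ε
    · refine ⟨n1, hn1N, hεs ?_⟩
      rw [Metric.mem_ball, Real.dist_eq, abs_lt]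
      constructor <;> linarith
    · rw [not_lt] at hlt
      obtain ⟨n2, hn2, hn2u⟩ := frequently_atTop.1 h5 n1
      classical
      have hex : ∃ m, n1 ≤ m ∧ u m < x + ε := ⟨n2, hn2, hn2u⟩
      set m := Nat.find hex with hm
      obtain ⟨hm1, hm2⟩ := Nat.find_spec hex
      rw [← hm] at hm1 hm2
      have hm0 : n1 ≠ m := fun h => by rw [← h] at hm2; linarith
      have hm3 : n1 ≤ m - 1 := by omega
      have hm4 : x + ε ≤ u (m - 1) := by
        by_contra hcon
        exact Nat.find_min hex (m := m - 1) (by omega) ⟨hm3, not_le.1 hcon⟩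
      have hm5 := hN' (m - 1) (by omega)
      rw [show m - 1 + 1 = m by omega, abs_lt] at hm5
      refine ⟨m, by omega, hεs ?_⟩
      rw [Metric.mem_ball, Real.dist_eq, abs_lt]
      constructor <;> linarith [hm5.1, hm5.2]

theorem diagRate_clusterPts :
    {x | MapClusterPt x atTop diagRate} = Icc (liminf diagRate atTop) (limsup diagRate atTop) :=
  clusterPts_eq diagRate_nonneg diagRate_le diagRate_diff

end Pool.Agent.H818R2.Ram
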