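import Pool.Agent.H818R2.Ram.Basic

/-! The two inequalities `R(k,l+1) ≤ k R(k,l)` and the dichotomy. -/

open Finset

namespace Pool.Agent.H818R2.Ram

open Classical in
/-- blue neighbourhoods are small -/
lemma blue_degree_lt {n k l : ℕ} {G : SimpleGraph (Fin n)} (hr : ¬ HasRed G univ k)
    (hb : ¬ HasBlue G univ (l + 1)) (v : Fin n) :
    (univ.filter (fun u => Gᶜ.Adj v u)).card < R k l := by
  by_contra hlt
  rw [not_lt] at hlt
  rcases arrows_embed (arrows_R k l) G _ hlt with h | h
  · exact hr (h.mono (subset_univ _))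
  · refine hb (hasBlue_succ (mem_univ v) (subset_univ _) (fun u hu => (mem_filter.1 hu).2) h)

/-- a maximum red clique -/
lemma exists_max_clique {n : ℕ} (G : SimpleGraph (Fin n)) : ∃ A : Finset (Fin n),
    G.IsClique (A : Set (Fin n)) ∧ ∀ B : Finset (Fin n), G.IsClique (B : Set (Fin n)) →
      B.card ≤ A.card := by
  classical
  have hne : (univ.filter (fun A : Finset (Fin n) => G.IsClique (A : Set (Fin n)))).Nonempty :=
    ⟨∅, by rw [mem_filter]; refine ⟨mem_univ _, ?_⟩; simp⟩
  obtain ⟨A, hA, hmax⟩ := exists_max_image _ Finset.card hne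
  refine ⟨A, (mem_filter.1 hA).2, fun B hB => hmax B ?_⟩
  rw [mem_filter]
  exact ⟨mem_univ _, hB⟩

open Classical in
/-- blue neighbours of `w` in `A` -/
noncomputable def pat {n : ℕ} (G : SimpleGraph (Fin n)) (A : Finset (Fin n)) (w : Fin n) :
    Finset (Fin n) := A.filter (fun a => Gᶜ.Adj w a)

lemma pat_subset {n : ℕ} (G : SimpleGraph (Fin n)) (A : Finset (Fin n)) (w : Fin n) :
    pat G A w ⊆ A := by
  classical
  intro x hx
  rw [pat, mem_filter] at hx
  exact hx.1

lemma pat_nonempty {n : ℕ} {G : SimpleGraph (Fin n)} {A : Finset (Fin n)}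
    (hA : G.IsClique (A : Set (Fin n)))
    (hmax : ∀ B : Finset (Fin n), G.IsClique (B : Set (Fin n)) → B.card ≤ A.card)
    {w : Fin n} (hw : w ∉ A) : (pat G A w).Nonempty := by
  classical
  by_contra h
  rw [not_nonempty_iff_eq_empty] at h
  have h1 : G.IsClique ((insert w A : Finset (Fin n)) : Set (Fin n)) := by
    rw [coe_insert]
    refine hA.insert fun a ha hne => ?_
    by_contra h2
    have h3 : a ∈ pat G A w := by
      rw [pat, mem_filter]
      refine ⟨ha, ?_⟩
      rw [SimpleGraph.compl_adj]
      exact ⟨hne, h2⟩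
    rw [h] at h3
    exact absurd h3 (notMem_empty _)
  have h2 := hmax _ h1
  rw [card_insert_of_notMem hw] at h2
  omega

/-- double counting of the blue edges between `A` and its complement -/
lemma sum_pat_le {n : ℕ} (G : SimpleGraph (Fin n)) (A : Finset (Fin n)) (D : ℕ)
    (hD : ∀ v, ∀ S : Finset (Fin n), (∀ u ∈ S, Gᶜ.Adj v u) → S.card ≤ D) (S : Finset (Fin n)) :
    ∑ w ∈ S, (pat G A w).card ≤ A.card * D := by
  classical
  have h1 : ∑ w ∈ S, (pat G A w).card = ∑ a ∈ A, (S.filter (fun w => Gᶜ.Adj w a)).card := by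
    simp only [pat, card_filter]
    exact sum_comm
  rw [h1]
  have h2 : ∀ a ∈ A, (S.filter (fun w => Gᶜ.Adj w a)).card ≤ D := by
    intro a _
    refine hD a _ fun u hu => ?_
    exact ((mem_filter.1 hu).2).symm
  calc ∑ a ∈ A, (S.filter (fun w => Gᶜ.Adj w a)).card ≤ ∑ _a ∈ A, D := sum_le_sum h2
    _ = A.card * D := by rw [sum_const, smul_eq_mul]

lemma deg_le {n k l : ℕ} {G : SimpleGraph (Fin n)} (hr : ¬ HasRed G univ k)
    (hb : ¬ HasBlue G univ (l + 1)) : ∀ v, ∀ S : Finset (Fin n), (∀ u ∈ S, Gᶜ.Adj v u) →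
      S.card ≤ R k l - 1 := by
  classical
  intro v S hS
  have h1 : S ⊆ univ.filter (fun u => Gᶜ.Adj v u) := by
    intro u hu
    rw [mem_filter]
    exact ⟨mem_univ _, hS u hu⟩
  have h2 := card_le_card h1
  have h3 := blue_degree_lt hr hb v
  omega

lemma clique_card_lt {n k : ℕ} {G : SimpleGraph (Fin n)} (hr : ¬ HasRed G univ k)
    {A : Finset (Fin n)} (hA : G.IsClique (A : Set (Fin n))) : A.card < k := by
  by_contra h
  rw [not_lt] at h
  apply hr
  refine HasRed.le (b := A.card) ⟨A, subset_univ _, ?_⟩ h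
  rw [SimpleGraph.isNClique_iff]
  exact ⟨hA, rfl⟩

/-- `R(k,l+1) ≤ (k-1) R(k,l) + 1` -/
theorem R_succ_le {k l : ℕ} (hk : 0 < k) (hl : 0 < l) : R k (l + 1) ≤ (k - 1) * R k l + 1 := by
  classical
  have hpos : 0 < R k (l + 1) := R_pos hk (Nat.succ_pos l)
  have hRkl : 0 < R k l := R_pos hk hl
  obtain ⟨G, hr, hb⟩ := exists_coloring (show R k (l + 1) - 1 < R k (l + 1) by omega)
  obtain ⟨A, hA, hmax⟩ := exists_max_clique G
  have hAk := clique_card_lt hr hA
  have h1 := sum_pat_le G A (R k l - 1) (deg_le hr hb) (univ \ A)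
  have h2 : (univ \ A).card ≤ ∑ w ∈ univ \ A, (pat G A w).card := by
    rw [card_eq_sum_ones]
    refine sum_le_sum fun w hw => ?_
    exact card_pos.2 (pat_nonempty hA hmax (mem_sdiff.1 hw).2)
  have h3 : (univ \ A).card = (R k (l + 1) - 1) - A.card := by
    rw [card_sdiff_of_subset (subset_univ A), card_univ, Fintype.card_fin]
  have h4 : A.card ≤ R k (l + 1) - 1 := by
    have := card_le_univ A
    rwa [Fintype.card_fin] at this
  have h5 : R k (l + 1) - 1 ≤ A.card * R k l := by
    have h6 : A.card * R k l = A.card * (R k l - 1) + A.card := by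
      obtain ⟨m, hm⟩ : ∃ m, R k l = m + 1 := ⟨R k l - 1, by omega⟩
      rw [hm]
      simp
      ring
    omega
  have h7 : A.card * R k l ≤ (k - 1) * R k l := Nat.mul_le_mul_right _ (by omega)
  omega

/-- each pattern class is small -/
lemma class_card {n l : ℕ} {G : SimpleGraph (Fin n)} (hb : ¬ HasBlue G univ (l + 1))
    {A : Finset (Fin n)} (hA : G.IsClique (A : Set (Fin n)))
    (hmax : ∀ B : Finset (Fin n), G.IsClique (B : Set (Fin n)) → B.card ≤ A.card)
    (P : Finset (Fin n)) (hPA : P ⊆ A) (S : Finset (Fin n)) (hSA : ∀ w ∈ S, w ∉ A)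
    (hS : ∀ w ∈ S, pat G A w = P) : S.card ≤ (P.card + l).choose P.card := by
  classical
  by_contra hlt
  rw [not_le] at hlt
  rcases erdos_szekeres G (P.card + l) P.card l rfl S hlt.le with h | h
  · obtain ⟨s, hs, hc⟩ := h
    rw [SimpleGraph.isNClique_iff] at hc
    have h1 : G.IsClique ((s ∪ (A \ P) : Finset (Fin n)) : Set (Fin n)) := by
      intro x hx y hy hxy
      have key : ∀ w ∈ s, ∀ a ∈ A \ P, G.Adj w a := by
        intro w hw a ha
        by_contra h2
        rw [mem_sdiff] at ha
        have h3 : a ∈ pat G A w := by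
          rw [pat, mem_filter]
          refine ⟨ha.1, ?_⟩
          rw [SimpleGraph.compl_adj]
          refine ⟨fun h4 => hSA w (hs hw) (h4 ▸ ha.1), h2⟩
        rw [hS w (hs hw)] at h3
        exact ha.2 h3
      rw [coe_union, Set.mem_union, mem_coe, mem_coe] at hx hy
      rcases hx with hx | hx <;> rcases hy with hy | hy
      · exact hc.1 hx hy hxy
      · exact key x hx y hy
      · exact (key y hy x hx).symm
      · exact hA (mem_sdiff.1 hx).1 (mem_sdiff.1 hy).1 hxy
    have h2 := hmax _ h1
    have hdisj : Disjoint s (A \ P) := by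
      rw [disjoint_left]
      intro w hw hw2
      exact hSA w (hs hw) (mem_sdiff.1 hw2).1
    rw [card_union_of_disjoint hdisj, hc.2, card_sdiff_of_subset hPA] at h2
    have h3 := card_le_card hPA
    omega
  · exact hb (h.mono (subset_univ _))

/-- the combinatorial dichotomy -/
theorem dichotomy {k l q : ℕ} (hk : 0 < k) (hl : 0 < l) (hq : 0 < q) :
    R k (l + 1) ≤ (q + 1) * R k l ∨ ∃ (A : Finset ℕ), A.card < k ∧
      R k (l + 1) ≤ (q + 1) * (k + ∑ P ∈ A.powerset.filter (fun P => q * P.card ≤ A.card),
        (P.card + l).choose P.card) := by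
  classical
  have hpos : 0 < R k (l + 1) := R_pos hk (Nat.succ_pos l)
  have hRkl : 0 < R k l := R_pos hk hl
  set n := R k (l + 1) - 1 with hn
  obtain ⟨G, hr, hb⟩ := exists_coloring (show n < R k (l + 1) by omega)
  obtain ⟨A, hA, hmax⟩ := exists_max_clique G
  have hAk := clique_card_lt hr hA
  set D := R k l - 1 with hD
  rcases lt_or_ge n ((q + 1) * D) with hcase | hcase
  · left
    have : (q + 1) * D ≤ (q + 1) * R k l := Nat.mul_le_mul_left _ (by omega)
    omega
  right
  set r := A.card with hrdef
  set T := univ \ A with hT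
  set X := T.filter (fun w => r < q * (pat G A w).card) with hX
  set Y := T.filter (fun w => ¬ (r < q * (pat G A w).card)) with hY
  have hXY : X.card + Y.card = T.card := card_filter_add_card_filter_not _
  have hTcard : T.card = n - r := by
    rw [hT, card_sdiff_of_subset (subset_univ A), card_univ, Fintype.card_fin]
  have hrn : r ≤ n := by
    have := card_le_univ A
    rwa [Fintype.card_fin] at this
  -- size of X
  have hX1 : X.card * r ≤ q * (r * D) := by
    have h1 : X.card * r ≤ ∑ w ∈ X, q * (pat G A w).card := by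
      rw [← smul_eq_mul, ← sum_const]
      exact sum_le_sum fun w hw => ((mem_filter.1 hw).2).le
    rw [← mul_sum] at h1
    exact h1.trans (Nat.mul_le_mul_left _ (sum_pat_le G A D (deg_le hr hb) X))
  have hYsum : Y.card ≤ ∑ P ∈ A.powerset.filter (fun P => q * P.card ≤ A.card),
      (P.card + l).choose P.card := by
    have h1 : Y.card = ∑ P ∈ A.powerset.filter (fun P => q * P.card ≤ A.card),
        (Y.filter (fun w => pat G A w = P)).card := by
      apply card_eq_sum_card_fiberwise
      intro w hw
      have hw' : w ∈ Y := hw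
      rw [hY, mem_filter] at hw'
      show pat G A w ∈ ((A.powerset.filter (fun P => q * P.card ≤ A.card) : Finset _) : Set _)
      rw [mem_coe, mem_filter, mem_powerset]
      exact ⟨pat_subset G A w, not_lt.1 hw'.2⟩
    rw [h1]
    refine sum_le_sum fun P hP => ?_
    rw [mem_filter, mem_powerset] at hP
    refine class_card hb hA hmax P hP.1 _ ?_ ?_
    · intro w hw
      have := (mem_filter.1 hw).1
      rw [hY, mem_filter, hT, mem_sdiff] at this
      exact this.1.2
    · intro w hw
      exact (mem_filter.1 hw).2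
  -- r = 0 or r > 0
  have hXle : (q + 1) * X.card ≤ q * n := by
    rcases Nat.eq_zero_or_pos r with h0 | h0
    · -- then T is everything and must be empty
      have hTe : T = ∅ := by
        by_contra hne
        obtain ⟨w, hw⟩ := nonempty_iff_ne_empty.2 hne
        have h1 := pat_nonempty hA hmax (mem_sdiff.1 hw).2
        have h2 := card_le_card (pat_subset G A w)
        have h3 := card_pos.2 h1
        omega
      have : X.card = 0 := by
        have h4 : X.card ≤ T.card := card_filter_le _ _
        rw [hTe, card_empty] at h4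
        omega
      rw [this]
      simp
    · have h1 : X.card ≤ q * D := by
        have h2 : X.card * r ≤ (q * D) * r := by
          calc X.card * r ≤ q * (r * D) := hX1
            _ = (q * D) * r := by ring
        exact Nat.le_of_mul_le_mul_right h2 h0
      calc (q + 1) * X.card ≤ (q + 1) * (q * D) := Nat.mul_le_mul_left _ h1
        _ = q * ((q + 1) * D) := by ring
        _ ≤ q * n := Nat.mul_le_mul_left _ hcase
  have hfin : n ≤ (q + 1) * (r + Y.card) := by
    have h1 : (q + 1) * n = (q + 1) * X.card + (q + 1) * (r + Y.card) := by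
      rw [← mul_add]
      congr 1
      omega
    have h2 : (q + 1) * n = q * n + n := by ring
    omega
  -- transport A to ℕ
  refine ⟨A.map Fin.valEmbedding, by rw [card_map]; exact hAk, ?_⟩
  have hsum : ∑ P ∈ (A.map Fin.valEmbedding).powerset.filter
        (fun P => q * P.card ≤ (A.map Fin.valEmbedding).card), (P.card + l).choose P.card =
      ∑ P ∈ A.powerset.filter (fun P => q * P.card ≤ A.card), (P.card + l).choose P.card := by
    symm
    refine sum_bij (fun P _ => P.map Fin.valEmbedding) ?_ ?_ ?_ ?_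
    · intro P hP
      rw [mem_filter, mem_powerset] at hP ⊢
      rw [card_map, card_map]
      exact ⟨map_subset_map.2 hP.1, hP.2⟩
    · intro P _ Q _ h
      exact map_injective _ h
    · intro Q hQ
      rw [mem_filter, mem_powerset] at hQ
      obtain ⟨P, hPA, hPQ⟩ := subset_map_iff.1 hQ.1
      refine ⟨P, ?_, hPQ.symm⟩
      rw [mem_filter, mem_powerset]
      refine ⟨hPA, ?_⟩
      have := hQ.2
      rw [hPQ, card_map, card_map] at this
      exact this
    · intro P _
      rw [card_map]
  rw [hsum]
  have h8 : (q + 1) * (r + Y.card) + (q + 1) ≤ (q + 1) * (k + ∑ P ∈ A.powerset.filter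
      (fun P => q * P.card ≤ A.card), (P.card + l).choose P.card) := by
    rw [← Nat.mul_succ]
    apply Nat.mul_le_mul_left
    omega
  omega

end Pool.Agent.H818R2.Ram
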