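import Pool.Agent.H818R2.Ram.Basic

/-! A lower bound for all Ramsey numbers: colourings with blue density `1/m`. -/

open Finset

namespace Pool.Agent.H818R2.Ram

/-- the graph of a colouring with `m` colours: colour `0` is blue, all others red -/
def gOfm {n m : ℕ} [NeZero m] (c : Sym2 (Fin n) → Fin m) : SimpleGraph (Fin n) where
  Adj x y := x ≠ y ∧ c s(x, y) ≠ 0
  symm := ⟨fun x y h => ⟨h.1.symm, by rw [Sym2.eq_swap]; exact h.2⟩⟩
  loopless := ⟨fun x h => h.1 rfl⟩

/-- colourings with all colours of the pairs of `s` in `K` -/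
noncomputable def badm {n m : ℕ} (s : Finset (Fin n)) (K : Finset (Fin m)) :
    Finset (Sym2 (Fin n) → Fin m) := by
  classical exact
  Fintype.piFinset (fun e => if e ∈ s.offDiag.image Sym2.mk.uncurry then K else univ)

lemma card_badm {n m : ℕ} (hm : 0 < m) (s : Finset (Fin n)) (K : Finset (Fin m)) :
    ((badm s K).card : ℝ) = (m : ℝ) ^ (Fintype.card (Sym2 (Fin n))) *
      ((K.card : ℝ) / m) ^ (s.card.choose 2) := by
  classical
  have hm' : (m : ℝ) ≠ 0 := by exact_mod_cast hm.ne'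
  have h1 : (badm s K).card = ∏ e : Sym2 (Fin n),
      (if e ∈ s.offDiag.image Sym2.mk.uncurry then K.card else m) := by
    unfold badm
    rw [Fintype.card_piFinset]
    refine prod_congr rfl fun e _ => ?_
    split_ifs
    · simp
    · simp
  have h2 := card_filter_add_card_filter_not (s := (univ : Finset (Sym2 (Fin n))))
    (fun e => e ∈ s.offDiag.image Sym2.mk.uncurry)
  have h3 : (univ.filter (fun e => e ∈ s.offDiag.image Sym2.mk.uncurry)) =
      s.offDiag.image Sym2.mk.uncurry := by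
    ext e; simp
  rw [h3, card_univ, Sym2.card_image_offDiag] at h2
  rw [h1, prod_ite, prod_const, prod_const, h3, Sym2.card_image_offDiag, ← h2]
  push_cast
  rw [pow_add, div_pow]
  field_simp

lemma badm_of_red {n m : ℕ} [NeZero m] (c : Sym2 (Fin n) → Fin m) (s : Finset (Fin n))
    (h : (gOfm c).IsClique (s : Set (Fin n))) : c ∈ badm s (univ.erase 0) := by
  classical
  unfold badm
  rw [Fintype.mem_piFinset]
  intro e
  split_ifs with he
  · obtain ⟨⟨x, y⟩, hxy, rfl⟩ := mem_image.1 he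
    rw [mem_offDiag] at hxy
    have := h hxy.1 hxy.2.1 hxy.2.2
    rw [mem_erase]
    exact ⟨this.2, mem_univ _⟩
  · exact mem_univ _

lemma badm_of_blue {n m : ℕ} [NeZero m] (c : Sym2 (Fin n) → Fin m) (s : Finset (Fin n))
    (h : (gOfm c)ᶜ.IsClique (s : Set (Fin n))) : c ∈ badm s {0} := by
  classical
  unfold badm
  rw [Fintype.mem_piFinset]
  intro e
  split_ifs with he
  · obtain ⟨⟨x, y⟩, hxy, rfl⟩ := mem_image.1 he
    rw [mem_offDiag] at hxy
    have := h hxy.1 hxy.2.1 hxy.2.2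
    rw [SimpleGraph.compl_adj] at this
    rw [mem_singleton]
    by_contra h2
    exact this.2 ⟨this.1, h2⟩
  · exact mem_univ _

lemma union_bound {n k l m : ℕ} (hm : 0 < m) (hle : R k l ≤ n) :
    (1 : ℝ) ≤ (n.choose l : ℝ) * (1 / (m : ℝ)) ^ (l.choose 2) +
      (n.choose k : ℝ) * (((m : ℝ) - 1) / m) ^ (k.choose 2) := by
  classical
  haveI : NeZero m := ⟨hm.ne'⟩
  have hm' : (0 : ℝ) < m := by exact_mod_cast hm
  set Bl := ((univ : Finset (Fin n)).powersetCard l).biUnion (fun s => badm s ({0} : Finset (Fin m)))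
    with hBl
  set Rd := ((univ : Finset (Fin n)).powersetCard k).biUnion
    (fun s => badm s ((univ : Finset (Fin m)).erase 0)) with hRd
  have hcov : (univ : Finset (Sym2 (Fin n) → Fin m)) ⊆ Bl ∪ Rd := by
    intro c _
    have hu : R k l ≤ (univ : Finset (Fin n)).card := by rw [card_univ, Fintype.card_fin]; exact hle
    rw [mem_union, hBl, hRd, mem_biUnion, mem_biUnion]
    rcases arrows_embed (arrows_R k l) (gOfm c) univ hu with h1 | h1
    · obtain ⟨s, hs, hc⟩ := h1
      rw [SimpleGraph.isNClique_iff] at hc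
      exact Or.inr ⟨s, mem_powersetCard.2 ⟨hs, hc.2⟩, badm_of_red c s hc.1⟩
    · obtain ⟨s, hs, hc⟩ := h1
      rw [SimpleGraph.isNClique_iff] at hc
      exact Or.inl ⟨s, mem_powersetCard.2 ⟨hs, hc.2⟩, badm_of_blue c s hc.1⟩
  have h1 := (card_le_card hcov).trans (card_union_le _ _)
  rw [card_univ, Fintype.card_fun, Fintype.card_fin] at h1
  have h2 : (Bl.card : ℝ) ≤ (n.choose l : ℝ) * ((m : ℝ) ^ (Fintype.card (Sym2 (Fin n))) *
      (1 / (m : ℝ)) ^ (l.choose 2)) := by
    have h3 : (Bl.card : ℝ) ≤ ∑ s ∈ (univ : Finset (Fin n)).powersetCard l,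
        ((badm s ({0} : Finset (Fin m))).card : ℝ) := by
      exact_mod_cast card_biUnion_le
    refine h3.trans ?_
    rw [sum_congr rfl (g := fun _ => (m : ℝ) ^ (Fintype.card (Sym2 (Fin n))) *
      (1 / (m : ℝ)) ^ (l.choose 2))]
    · rw [sum_const, nsmul_eq_mul, card_powersetCard, card_univ, Fintype.card_fin]
    · intro s hs
      rw [card_badm hm, (mem_powersetCard.1 hs).2, card_singleton, Nat.cast_one]
  have h4 : (Rd.card : ℝ) ≤ (n.choose k : ℝ) * ((m : ℝ) ^ (Fintype.card (Sym2 (Fin n))) *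
      (((m : ℝ) - 1) / m) ^ (k.choose 2)) := by
    have h3 : (Rd.card : ℝ) ≤ ∑ s ∈ (univ : Finset (Fin n)).powersetCard k,
        ((badm s ((univ : Finset (Fin m)).erase 0)).card : ℝ) := by
      exact_mod_cast card_biUnion_le
    refine h3.trans ?_
    rw [sum_congr rfl (g := fun _ => (m : ℝ) ^ (Fintype.card (Sym2 (Fin n))) *
      (((m : ℝ) - 1) / m) ^ (k.choose 2))]
    · rw [sum_const, nsmul_eq_mul, card_powersetCard, card_univ, Fintype.card_fin]
    · intro s hs
      rw [card_badm hm, (mem_powersetCard.1 hs).2, card_erase_of_mem (mem_univ _), card_univ,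
        Fintype.card_fin, Nat.cast_sub hm, Nat.cast_one]
  have h5 : (m : ℝ) ^ (Fintype.card (Sym2 (Fin n))) ≤ (Bl.card : ℝ) + Rd.card := by
    exact_mod_cast h1
  have h6 : (0 : ℝ) < (m : ℝ) ^ (Fintype.card (Sym2 (Fin n))) := by positivity
  have h7 : (m : ℝ) ^ (Fintype.card (Sym2 (Fin n))) * 1 ≤
      (m : ℝ) ^ (Fintype.card (Sym2 (Fin n))) * ((n.choose l : ℝ) * (1 / (m : ℝ)) ^ (l.choose 2) +
      (n.choose k : ℝ) * (((m : ℝ) - 1) / m) ^ (k.choose 2)) := by
    linarith
  exact le_of_mul_le_mul_left h7 h6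

lemma two_mul_choose_two (k : ℕ) : k.choose 2 * 2 = k * (k - 1) := by
  rw [Nat.choose_two_right]
  exact Nat.div_mul_cancel (Nat.even_mul_pred_self k).two_dvd

lemma one_sub_pow_le {m : ℕ} (hm : 2 ≤ m) : (((m : ℝ) - 1) / m) ^ (m ^ 2) ≤ 1 / m := by
  have hm' : (0 : ℝ) < m := by positivity
  have h1 : ((m : ℝ) - 1) / m ≤ Real.exp (-(1 / m)) := by
    have := Real.add_one_le_exp (-(1 / (m : ℝ)))
    have e : ((m : ℝ) - 1) / m = -(1 / (m : ℝ)) + 1 := by field_simp; ring
    rw [e]; exact this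
  have h0 : 0 ≤ ((m : ℝ) - 1) / m := by
    have : (2 : ℝ) ≤ m := by exact_mod_cast hm
    apply div_nonneg _ hm'.le
    linarith
  calc (((m : ℝ) - 1) / m) ^ (m ^ 2) ≤ (Real.exp (-(1 / m))) ^ (m ^ 2) := pow_le_pow_left₀ h0 h1 _
    _ = Real.exp (-m) := by
      rw [← Real.exp_nat_mul]
      congr 1
      push_cast
      field_simp
    _ ≤ 1 / m := by
      rw [Real.exp_neg, ← one_div]
      apply one_div_le_one_div_of_le hm'
      have := Real.add_one_le_exp (m : ℝ)
      linarith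

/-- lower bound for all Ramsey numbers -/
theorem lower_m {k l m : ℕ} (hl : 3 ≤ l) (hkl : l ≤ k) (hm : 2 ≤ m)
    (hkm : m ^ 2 * (l - 1) ≤ k - 1) : m ^ (l - 1) < (R k l) ^ 2 := by
  by_contra h
  rw [not_lt] at h
  set n := R k l with hn
  have hm0 : (0 : ℝ) < m := by positivity
  have hub := union_bound (n := n) (k := k) (l := l) (m := m) (by omega) le_rfl
  have fac : ∀ j : ℕ, 3 ≤ j → (6 : ℝ) ≤ (j.factorial : ℝ) := by
    intro j hj
    have : (3 : ℕ).factorial ≤ j.factorial := Nat.factorial_le hj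
    have h6 : (3 : ℕ).factorial = 6 := by decide
    rw [h6] at this
    exact_mod_cast this
  have hR : ((n : ℝ)) ^ 2 ≤ (m : ℝ) ^ (l - 1) := by exact_mod_cast h
  -- first term
  have t1 : (n.choose l : ℝ) * (1 / (m : ℝ)) ^ (l.choose 2) ≤ 1 / 6 := by
    have h1 : (n.choose l : ℝ) ≤ (n : ℝ) ^ l / l.factorial := Nat.choose_le_pow_div l n
    have h2 : (n : ℝ) ^ l ≤ (m : ℝ) ^ (l.choose 2) := by
      have h3 : ((n : ℝ) ^ l) ^ 2 ≤ ((m : ℝ) ^ (l.choose 2)) ^ 2 := by
        rw [← pow_mul, ← pow_mul (m : ℝ), two_mul_choose_two, mul_comm l 2, pow_mul, mul_comm l (l - 1),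
          pow_mul]
        exact pow_le_pow_left₀ (by positivity) hR l
      exact le_of_sq_le_sq h3 (by positivity)
    have h4 : (n.choose l : ℝ) ≤ (m : ℝ) ^ (l.choose 2) / 6 := by
      refine h1.trans ?_
      have := fac l hl
      gcongr
    calc (n.choose l : ℝ) * (1 / (m : ℝ)) ^ (l.choose 2)
        ≤ ((m : ℝ) ^ (l.choose 2) / 6) * (1 / (m : ℝ)) ^ (l.choose 2) := by gcongr
      _ = 1 / 6 := by
        rw [one_div_pow]
        field_simp
  -- second term
  have t2 : (n.choose k : ℝ) * (((m : ℝ) - 1) / m) ^ (k.choose 2) ≤ 1 / 6 := by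
    have h1 : (n.choose k : ℝ) ≤ (n : ℝ) ^ k / k.factorial := Nat.choose_le_pow_div k n
    have hx0 : 0 ≤ ((m : ℝ) - 1) / m := by
      have : (2 : ℝ) ≤ m := by exact_mod_cast hm
      apply div_nonneg _ hm0.le
      linarith
    have hx1 : ((m : ℝ) - 1) / m ≤ 1 := by
      rw [div_le_one hm0]
      linarith
    have h2 : (n : ℝ) ^ k * (((m : ℝ) - 1) / m) ^ (k.choose 2) ≤ 1 := by
      have h3 : ((n : ℝ) ^ k * (((m : ℝ) - 1) / m) ^ (k.choose 2)) ^ 2 ≤ 1 ^ 2 := by
        rw [mul_pow, ← pow_mul, ← pow_mul, two_mul_choose_two, mul_comm k 2, pow_mul,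
          mul_comm k (k - 1), pow_mul, ← mul_pow, one_pow]
        apply pow_le_one₀ (by positivity)
        calc (n : ℝ) ^ 2 * (((m : ℝ) - 1) / m) ^ (k - 1)
            ≤ (m : ℝ) ^ (l - 1) * (((m : ℝ) - 1) / m) ^ (m ^ 2 * (l - 1)) := by
              apply mul_le_mul hR _ (by positivity) (by positivity)
              exact pow_le_pow_of_le_one hx0 hx1 hkm
          _ ≤ (m : ℝ) ^ (l - 1) * (1 / m) ^ (l - 1) := by
              rw [pow_mul]
              have := one_sub_pow_le hm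
              gcongr
          _ = 1 := by
              rw [← mul_pow, mul_one_div_cancel hm0.ne', one_pow]
      exact le_of_sq_le_sq h3 (by norm_num)
    have h4 := fac k (by omega)
    calc (n.choose k : ℝ) * (((m : ℝ) - 1) / m) ^ (k.choose 2)
        ≤ ((n : ℝ) ^ k / k.factorial) * (((m : ℝ) - 1) / m) ^ (k.choose 2) := by gcongr
      _ = ((n : ℝ) ^ k * (((m : ℝ) - 1) / m) ^ (k.choose 2)) / k.factorial := by ring
      _ ≤ 1 / 6 := by
        have h0 : (0:ℝ) ≤ (n : ℝ) ^ k * (((m : ℝ) - 1) / m) ^ (k.choose 2) := by positivity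
        gcongr
  linarith

end Pool.Agent.H818R2.Ram
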