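import Pool.Agent.H818R2.Ram.Ratio
import Pool.Agent.H818R2.Ram.Lower

/-! The uniform bound `R(k,l+1) ≤ 1025 (1 + k/l) R(k,l)`. -/

open Finset

namespace Pool.Agent.H818R2.Ram

lemma lower_pow {k l : ℕ} (hl : 3 ≤ l) (hkl : l ≤ k) :
    (1 + (k : ℝ) / l) ^ l ≤ (R k l : ℝ) ^ 12 := by
  have hl0 : (0 : ℝ) < l := by positivity
  have hRpos : 0 < R k l := R_pos (by omega) (by omega)
  have hR1 : (1 : ℝ) ≤ R k l := by exact_mod_cast hRpos
  set m := Nat.sqrt (k / l) with hm
  have h1 : k / l < (m + 1) ^ 2 := Nat.lt_succ_sqrt' (k / l)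
  have h2 : k < (m + 1) ^ 2 * l := by
    rw [Nat.div_lt_iff_lt_mul (by omega)] at h1
    exact h1
  have h3 : (k : ℝ) / l ≤ ((m : ℝ) + 1) ^ 2 := by
    rw [div_le_iff₀ hl0]
    exact_mod_cast h2.le
  have hT0 : 0 ≤ 1 + (k : ℝ) / l := by positivity
  rcases le_or_gt 2 m with hm2 | hm2
  · have h4 : m ^ 2 ≤ k / l := Nat.sqrt_le' (k / l)
    have h5 : m ^ 2 * l ≤ k := by
      rw [Nat.le_div_iff_mul_le (by omega)] at h4
      exact h4
    have h6 : m ^ 2 * (l - 1) ≤ k - 1 := by
      obtain ⟨l', rfl⟩ : ∃ l', l = l' + 1 := ⟨l - 1, by omega⟩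
      rw [Nat.add_sub_cancel]
      have h7 : m ^ 2 * (l' + 1) = m ^ 2 * l' + m ^ 2 := by ring
      have h8 : 1 ≤ m ^ 2 := Nat.one_le_pow _ _ (by omega)
      omega
    have h7 := lower_m hl hkl hm2 h6
    have h8 : (m : ℝ) ^ (l - 1) ≤ (R k l : ℝ) ^ 2 := by exact_mod_cast h7.le
    have hm2' : (2 : ℝ) ≤ m := by exact_mod_cast hm2
    have h9 : 1 + (k : ℝ) / l ≤ (m : ℝ) ^ 4 := by
      have : 1 + ((m : ℝ) + 1) ^ 2 ≤ (m : ℝ) ^ 4 := by
        have e1 : 4 ≤ (m : ℝ) ^ 2 := by nlinarith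
        nlinarith
      linarith
    calc (1 + (k : ℝ) / l) ^ l ≤ ((m : ℝ) ^ 4) ^ l := pow_le_pow_left₀ hT0 h9 l
      _ = (m : ℝ) ^ (4 * l) := by rw [← pow_mul]
      _ ≤ (m : ℝ) ^ (6 * (l - 1)) := pow_le_pow_right₀ (by linarith) (by omega)
      _ = ((m : ℝ) ^ (l - 1)) ^ 6 := by rw [← pow_mul, mul_comm]
      _ ≤ ((R k l : ℝ) ^ 2) ^ 6 := pow_le_pow_left₀ (by positivity) h8 6
      _ = (R k l : ℝ) ^ 12 := by rw [← pow_mul]
  · have h4 : ((m : ℝ) + 1) ^ 2 ≤ 4 := by
      have : (m : ℝ) ≤ 1 := by exact_mod_cast (by omega : m ≤ 1)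
      have h0 : (0 : ℝ) ≤ m := Nat.cast_nonneg _
      nlinarith
    have h5 : 1 + (k : ℝ) / l ≤ 8 := by linarith
    have h6 := erdos_lower hl
    have h7 : R l l ≤ R k l := R_mono hkl le_rfl
    have h8 : (2 : ℝ) ^ l ≤ (R k l : ℝ) ^ 2 := by
      have : 2 ^ l ≤ (R k l) ^ 2 := h6.le.trans (Nat.pow_le_pow_left h7 2)
      exact_mod_cast this
    calc (1 + (k : ℝ) / l) ^ l ≤ 8 ^ l := pow_le_pow_left₀ hT0 h5 l
      _ = ((2 : ℝ) ^ l) ^ 3 := by
        rw [← pow_mul, mul_comm, pow_mul]; norm_num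
      _ ≤ ((R k l : ℝ) ^ 2) ^ 3 := pow_le_pow_left₀ (by positivity) h8 3
      _ = (R k l : ℝ) ^ 6 := by rw [← pow_mul]
      _ ≤ (R k l : ℝ) ^ 12 := pow_le_pow_right₀ hR1 (by norm_num)

/-- symmetric form -/
lemma lower_pow_min {k l : ℕ} (h3 : 3 ≤ min k l) :
    (1 + ((max k l : ℕ) : ℝ) / ((min k l : ℕ) : ℝ)) ^ (min k l) ≤ (R k l : ℝ) ^ 12 := by
  rcases le_total k l with h | h
  · rw [min_eq_left h, max_eq_right h, R_symm]
    rw [min_eq_left h] at h3
    exact lower_pow h3 h
  · rw [min_eq_right h, max_eq_left h]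
    rw [min_eq_right h] at h3
    exact lower_pow h3 h

/-- estimate of the sum over patterns, with a free parameter `x` -/
lemma sum_le_param (A : Finset ℕ) (l q k : ℕ) (hq : 0 < q) (hA : A.card ≤ k) (x : ℝ) (hx : 0 < x) :
    ((∑ P ∈ A.powerset.filter (fun P => q * P.card ≤ A.card), (P.card + l).choose P.card : ℕ) : ℝ) ≤
      (1 + x) ^ l * ((q : ℝ) * (1 + 1 / x)) ^ ((k : ℝ) / q) * (1 + 1 / (q : ℝ)) ^ k := by
  have hq' : (0 : ℝ) < q := by exact_mod_cast hq
  have hq1 : (1 : ℝ) ≤ q := by exact_mod_cast hq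
  set B : ℝ := (q : ℝ) * (1 + 1 / x) with hB
  have hx' : 0 < 1 / x := by positivity
  have hB1 : 1 ≤ B := by rw [hB]; nlinarith
  set r := A.card with hr
  have hterm : ∀ P ∈ A.powerset.filter (fun P => q * P.card ≤ A.card),
      ((P.card + l).choose P.card : ℝ) ≤
        (1 + x) ^ l * B ^ ((r : ℝ) / q) * (1 / (q : ℝ)) ^ P.card := by
    intro P hP
    rw [mem_filter] at hP
    set p := P.card with hp
    have h1 : ((p + l).choose p : ℝ) ≤ (1 + 1 / x) ^ p * (1 + x) ^ l := by
      have h2 : x ^ p * ((p + l).choose p : ℝ) ≤ (x + 1) ^ (p + l) := by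
        rw [add_pow]
        have h3 := single_le_sum (f := fun m => x ^ m * 1 ^ (p + l - m) *
          ((p + l).choose m : ℝ)) (s := range (p + l + 1)) (fun m _ => by positivity)
          (mem_range.2 (by omega : p < p + l + 1))
        simpa using h3
      have h4 : ((p + l).choose p : ℝ) = (1 / x) ^ p * (x ^ p * ((p + l).choose p : ℝ)) := by
        rw [← mul_assoc, ← mul_pow, one_div_mul_cancel hx.ne', one_pow, one_mul]
      rw [h4]
      calc (1 / x) ^ p * (x ^ p * ((p + l).choose p : ℝ))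
          ≤ (1 / x) ^ p * (x + 1) ^ (p + l) := mul_le_mul_of_nonneg_left h2 (by positivity)
        _ = (1 + 1 / x) ^ p * (1 + x) ^ l := by
          rw [pow_add, ← mul_assoc, ← mul_pow]
          congr 1
          · congr 1
            field_simp
          · rw [add_comm]
    have h2 : (1 + 1 / x) ^ p = B ^ p * (1 / (q : ℝ)) ^ p := by
      rw [← mul_pow, hB]
      congr 1
      field_simp
    have h3 : B ^ p ≤ B ^ ((r : ℝ) / q) := by
      rw [← Real.rpow_natCast]
      apply Real.rpow_le_rpow_of_exponent_le hB1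
      rw [le_div_iff₀ hq']
      have : (q : ℝ) * p ≤ r := by exact_mod_cast hP.2
      linarith
    calc ((p + l).choose p : ℝ) ≤ (1 + 1 / x) ^ p * (1 + x) ^ l := h1
      _ = (1 + x) ^ l * B ^ p * (1 / (q : ℝ)) ^ p := by rw [h2]; ring
      _ ≤ (1 + x) ^ l * B ^ ((r : ℝ) / q) * (1 / (q : ℝ)) ^ p := by
        apply mul_le_mul_of_nonneg_right _ (by positivity)
        exact mul_le_mul_of_nonneg_left h3 (by positivity)
  push_cast
  have hBr := Real.rpow_nonneg (le_trans zero_le_one hB1) ((r : ℝ) / q)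
  calc ∑ P ∈ A.powerset.filter (fun P => q * P.card ≤ A.card), ((P.card + l).choose P.card : ℝ)
      ≤ ∑ P ∈ A.powerset.filter (fun P => q * P.card ≤ A.card),
          (1 + x) ^ l * B ^ ((r : ℝ) / q) * (1 / (q : ℝ)) ^ P.card := sum_le_sum hterm
    _ ≤ ∑ P ∈ A.powerset, (1 + x) ^ l * B ^ ((r : ℝ) / q) * (1 / (q : ℝ)) ^ P.card := by
      apply sum_le_sum_of_subset_of_nonneg (filter_subset _ _)
      intro P _ _
      positivity
    _ = (1 + x) ^ l * B ^ ((r : ℝ) / q) * (1 / (q : ℝ) + 1) ^ r := by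
      rw [← mul_sum, ← sum_pow_mul_eq_add_pow]
      simp
    _ ≤ (1 + x) ^ l * B ^ ((k : ℝ) / q) * (1 + 1 / (q : ℝ)) ^ k := by
      have e1 : (1 : ℝ) ≤ 1 + 1 / (q : ℝ) := by
        have : 0 < 1 / (q : ℝ) := by positivity
        linarith
      have h2 : (1 / (q : ℝ) + 1) ^ r ≤ (1 + 1 / (q : ℝ)) ^ k := by
        rw [add_comm]
        exact pow_le_pow_right₀ e1 hA
      have h3 : B ^ ((r : ℝ) / q) ≤ B ^ ((k : ℝ) / q) := by
        apply Real.rpow_le_rpow_of_exponent_le hB1
        have : (r : ℝ) ≤ k := by exact_mod_cast hA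
        gcongr
      gcongr

/-- exponential form -/
lemma sum_le_exp (A : Finset ℕ) (l q k : ℕ) (hq : 0 < q) (hk : 0 < k) (hl : 0 < l)
    (hA : A.card ≤ k) :
    ((∑ P ∈ A.powerset.filter (fun P => q * P.card ≤ A.card), (P.card + l).choose P.card : ℕ) : ℝ) ≤
      Real.exp (((k : ℝ) / q) * (2 + 2 * Real.log q + Real.log (1 + (l : ℝ) / k))) := by
  have hq' : (0 : ℝ) < q := by exact_mod_cast hq
  have hq1 : (1 : ℝ) ≤ q := by exact_mod_cast hq
  have hk' : (0 : ℝ) < k := by exact_mod_cast hk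
  have hl' : (0 : ℝ) < l := by exact_mod_cast hl
  set x : ℝ := (k : ℝ) / (q * l) with hx
  have hx0 : 0 < x := by positivity
  refine (sum_le_param A l q k hq hA x hx0).trans ?_
  have h1 : (1 + x) ^ l ≤ Real.exp ((k : ℝ) / q) := by
    calc (1 + x) ^ l ≤ (Real.exp x) ^ l := by
          apply pow_le_pow_left₀ (by positivity)
          have := Real.add_one_le_exp x
          linarith
      _ = Real.exp ((k : ℝ) / q) := by
          rw [← Real.exp_nat_mul]
          congr 1
          rw [hx]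
          field_simp
  have h2 : (1 + 1 / (q : ℝ)) ^ k ≤ Real.exp ((k : ℝ) / q) := by
    calc (1 + 1 / (q : ℝ)) ^ k ≤ (Real.exp (1 / (q : ℝ))) ^ k := by
          apply pow_le_pow_left₀ (by positivity)
          have := Real.add_one_le_exp (1 / (q : ℝ))
          linarith
      _ = Real.exp ((k : ℝ) / q) := by
          rw [← Real.exp_nat_mul]
          congr 1
          ring
  have h3 : ((q : ℝ) * (1 + 1 / x)) ^ ((k : ℝ) / q) ≤
      Real.exp (((k : ℝ) / q) * (2 * Real.log q + Real.log (1 + (l : ℝ) / k))) := by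
    have hb : (q : ℝ) * (1 + 1 / x) ≤ (q : ℝ) ^ 2 * (1 + (l : ℝ) / k) := by
      have e1 : 1 / x = q * ((l : ℝ) / k) := by rw [hx]; field_simp
      rw [e1]
      have : 0 < (l : ℝ) / k := by positivity
      nlinarith
    have hpos : 0 < (q : ℝ) * (1 + 1 / x) := by positivity
    have e2 : (q : ℝ) ^ 2 * (1 + (l : ℝ) / k) =
        Real.exp (2 * Real.log q + Real.log (1 + (l : ℝ) / k)) := by
      rw [Real.exp_add, Real.exp_log (by positivity)]
      congr 1
      rw [mul_comm, Real.exp_mul, Real.exp_log hq']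
      norm_cast
    calc ((q : ℝ) * (1 + 1 / x)) ^ ((k : ℝ) / q)
        ≤ ((q : ℝ) ^ 2 * (1 + (l : ℝ) / k)) ^ ((k : ℝ) / q) :=
          Real.rpow_le_rpow hpos.le hb (by positivity)
      _ = Real.exp (((k : ℝ) / q) * (2 * Real.log q + Real.log (1 + (l : ℝ) / k))) := by
          rw [e2, ← Real.exp_mul]
          congr 1
          ring
  have h4 : 0 ≤ ((q : ℝ) * (1 + 1 / x)) ^ ((k : ℝ) / q) := by positivity
  calc (1 + x) ^ l * ((q : ℝ) * (1 + 1 / x)) ^ ((k : ℝ) / q) * (1 + 1 / (q : ℝ)) ^ k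
      ≤ Real.exp ((k : ℝ) / q) *
        Real.exp (((k : ℝ) / q) * (2 * Real.log q + Real.log (1 + (l : ℝ) / k))) *
        Real.exp ((k : ℝ) / q) := by gcongr
    _ = Real.exp (((k : ℝ) / q) * (2 + 2 * Real.log q + Real.log (1 + (l : ℝ) / k))) := by
      rw [← Real.exp_add, ← Real.exp_add]
      congr 1
      ring

lemma two_pow_ge {j : ℕ} (hj : 9 ≤ j) : 24 * (j + 1) ≤ 2 ^ (j - 1) := by
  induction j, hj using Nat.le_induction with
  | base => norm_num
  | succ j hj ih =>
    obtain ⟨i, rfl⟩ : ∃ i, j = i + 1 := ⟨j - 1, by omega⟩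
    simp only [Nat.add_sub_cancel] at ih ⊢
    rw [pow_succ]
    omega

/-- the uniform bound -/
theorem uniform {k l : ℕ} (hk : 0 < k) (hl : 0 < l) :
    (R k (l + 1) : ℝ) ≤ 1025 * (1 + (k : ℝ) / l) * R k l := by
  have hk' : (0 : ℝ) < k := by exact_mod_cast hk
  have hl' : (0 : ℝ) < l := by exact_mod_cast hl
  have hkl0 : 0 < (k : ℝ) / l := by positivity
  have hRkl : 0 < R k l := R_pos hk hl
  have hRkl' : (0 : ℝ) < R k l := by exact_mod_cast hRkl
  set m := min k l with hm
  rcases lt_or_ge m 108 with hm108 | hm108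
  · have h1 := R_succ_le' hk hl
    have h2 : (R k (l + 1) : ℝ) ≤ k * R k l := by exact_mod_cast h1
    have h3 : (k : ℝ) ≤ 1025 * (1 + (k : ℝ) / l) := by
      rcases le_total k l with h | h
      · rw [hm, min_eq_left h] at hm108
        have : (k : ℝ) < 108 := by exact_mod_cast hm108
        nlinarith
      · rw [hm, min_eq_right h] at hm108
        have h5 : (l : ℝ) < 108 := by exact_mod_cast hm108
        have h6 : (k : ℝ) = l * (k / l) := by field_simp
        nlinarith
    calc (R k (l + 1) : ℝ) ≤ k * R k l := h2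
      _ ≤ 1025 * (1 + (k : ℝ) / l) * R k l := by gcongr
  -- main case
  set M := max k l with hM
  set T : ℝ := 1 + (M : ℝ) / m with hT
  have hm0 : 0 < m := by omega
  have hm' : (0 : ℝ) < m := by exact_mod_cast hm0
  have hmM : (m : ℝ) ≤ M := by
    have : m ≤ M := min_le_max
    exact_mod_cast this
  have hT2 : 2 ≤ T := by
    have : 1 ≤ (M : ℝ) / m := by rw [le_div_iff₀ hm']; linarith
    rw [hT]; linarith
  have hT0 : 0 < T := by linarith
  have hkm : (k : ℝ) ≤ M := by exact_mod_cast le_max_left k l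
  have hlM : (l : ℝ) ≤ M := by exact_mod_cast le_max_right k l
  have hmk : (m : ℝ) ≤ k := by exact_mod_cast min_le_left k l
  have hml : (m : ℝ) ≤ l := by exact_mod_cast min_le_right k l
  have hklT : 1 + (k : ℝ) / l ≤ T := by
    rw [hT]
    have : (k : ℝ) / l ≤ (M : ℝ) / m := by gcongr
    linarith
  have hlkT : 1 + (l : ℝ) / k ≤ T := by
    rw [hT]
    have : (l : ℝ) / k ≤ (M : ℝ) / m := by gcongr
    linarith
  -- the parameter q
  set a := (k + l - 1) / l with ha
  have ha1 : 1 ≤ a := by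
    rw [ha, Nat.le_div_iff_mul_le hl]
    omega
  have hal : k ≤ a * l := by
    have h1 : k + l - 1 < (a + 1) * l := by
      exact (Nat.div_lt_iff_lt_mul hl).1 (Nat.lt_succ_self a)
    have h2 : (a + 1) * l = a * l + l := by ring
    omega
  have hau : (a : ℝ) ≤ 1 + (k : ℝ) / l := by
    have h1 : a * l ≤ k + l - 1 := Nat.div_mul_le_self _ _
    have h2 : a * l ≤ k + l := by omega
    have h3 : (a : ℝ) * l ≤ k + l := by exact_mod_cast h2
    have h4 : (1 + (k : ℝ) / l) = (k + l) / l := by field_simp; ring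
    rw [h4, le_div_iff₀ hl']
    exact h3
  set q := 1024 * a with hq
  have hq0 : 0 < q := by omega
  have hq' : (0 : ℝ) < q := by exact_mod_cast hq0
  have hqcast : (q : ℝ) = 1024 * a := by rw [hq]; push_cast; ring
  have ha' : (1 : ℝ) ≤ a := by exact_mod_cast ha1
  have hkq : (k : ℝ) / q ≤ m / 1024 := by
    rw [hqcast, div_le_div_iff₀ (by positivity) (by norm_num)]
    have : (k : ℝ) ≤ a * m := by
      rcases le_total k l with h | h
      · have : (m : ℝ) = k := by rw [hm, min_eq_left h]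
        rw [this]
        nlinarith
      · have : (m : ℝ) = l := by rw [hm, min_eq_right h]
        rw [this]
        exact_mod_cast hal
    nlinarith
  have hqT : (q : ℝ) ≤ 1024 * T := by
    rw [hqcast]
    linarith
  have hlogT : Real.log 2 ≤ Real.log T := Real.log_le_log (by norm_num) hT2
  have hlog2 : 0.69 < Real.log 2 := by
    have := Real.log_two_gt_d9
    linarith
  have hexp : ((k : ℝ) / q) * (2 + 2 * Real.log q + Real.log (1 + (l : ℝ) / k)) ≤
      (m / 24) * Real.log T := by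
    have h1 : Real.log q ≤ 10 * Real.log 2 + Real.log T := by
      calc Real.log q ≤ Real.log (1024 * T) := Real.log_le_log hq' hqT
        _ = Real.log (2 ^ 10 * T) := by norm_num
        _ = 10 * Real.log 2 + Real.log T := by
          rw [Real.log_mul (by norm_num) hT0.ne', Real.log_pow]
          norm_num
    have h2 : Real.log (1 + (l : ℝ) / k) ≤ Real.log T := Real.log_le_log (by positivity) hlkT
    have h3 : 0 ≤ Real.log q := Real.log_nonneg (by exact_mod_cast hq0)
    have h4 : 0 ≤ Real.log (1 + (l : ℝ) / k) := by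
      apply Real.log_nonneg
      have : 0 < (l : ℝ) / k := by positivity
      linarith
    calc ((k : ℝ) / q) * (2 + 2 * Real.log q + Real.log (1 + (l : ℝ) / k))
        ≤ (m / 1024) * (2 + 2 * Real.log q + Real.log (1 + (l : ℝ) / k)) := by gcongr
      _ ≤ (m / 1024) * (2 + 2 * (10 * Real.log 2 + Real.log T) + Real.log T) := by gcongr
      _ ≤ (m / 24) * Real.log T := by
        have : (1 / 1024 : ℝ) * (2 + 2 * (10 * Real.log 2 + Real.log T) + Real.log T) ≤
          (1 / 24) * Real.log T := by linarith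
        calc (m / 1024) * (2 + 2 * (10 * Real.log 2 + Real.log T) + Real.log T)
            = m * ((1 / 1024 : ℝ) * (2 + 2 * (10 * Real.log 2 + Real.log T) + Real.log T)) := by ring
          _ ≤ m * ((1 / 24) * Real.log T) := by gcongr
          _ = (m / 24) * Real.log T := by ring
  set Z : ℝ := Real.exp ((m / 24) * Real.log T) with hZ
  have hZpos : 0 < Z := Real.exp_pos _
  -- lower bound R ≥ Z^2
  have hRZ : Z ^ 2 ≤ R k l := by
    have h1 := lower_pow_min (k := k) (l := l) (by omega)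
    have h2 : (Z ^ 2) ^ 12 = T ^ m := by
      rw [hZ, ← pow_mul, ← Real.exp_nat_mul, ← Real.exp_log (pow_pos hT0 m), Real.log_pow]
      congr 1
      push_cast
      ring
    have h3 : (Z ^ 2) ^ 12 ≤ (R k l : ℝ) ^ 12 := by
      rw [h2]
      exact h1
    exact le_of_pow_le_pow_left₀ (by norm_num) hRkl'.le h3
  -- Z^2 is large
  have hZlarge : (k : ℝ) + Z ≤ Z ^ 2 := by
    set j := m / 12 with hj
    have hj9 : 9 ≤ j := by omega
    have hjm : m < 12 * (j + 1) := by omega
    have hjm2 : 12 * j ≤ m := by omega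
    have h1 : T ^ j ≤ Z ^ 2 := by
      have e1 : T ^ j = Real.exp (j * Real.log T) := by
        rw [Real.exp_nat_mul, Real.exp_log hT0]
      have e2 : Z ^ 2 = Real.exp ((m / 12) * Real.log T) := by
        rw [hZ, ← Real.exp_nat_mul]
        congr 1
        push_cast
        ring
      rw [e1, e2]
      apply Real.exp_le_exp.2
      have : (12 : ℝ) * j ≤ m := by exact_mod_cast hjm2
      have h5 : (j : ℝ) ≤ m / 12 := by linarith
      have h6 : 0 ≤ Real.log T := by linarith
      gcongr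
    have h2 : T * 2 ^ (j - 1) ≤ T ^ j := by
      obtain ⟨i, hi⟩ : ∃ i, j = i + 1 := ⟨j - 1, by omega⟩
      rw [hi, Nat.add_sub_cancel, pow_succ, mul_comm]
      gcongr
    have h3 : (2 : ℝ) * m ≤ 2 ^ (j - 1) := by
      have h4 := two_pow_ge hj9
      have h5 : 2 * m ≤ 2 ^ (j - 1) := by omega
      exact_mod_cast h5
    have h4 : 2 * (m * T) ≤ Z ^ 2 := by
      calc 2 * (m * T) = T * (2 * m) := by ring
        _ ≤ T * 2 ^ (j - 1) := by gcongr
        _ ≤ Z ^ 2 := h2.trans h1
    have h5 : (k : ℝ) ≤ m * T := by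
      rw [hT]
      have : (m : ℝ) * (1 + M / m) = m + M := by field_simp
      rw [this]
      linarith
    have h6 : 2 ≤ Z := by
      have h7 : (108 : ℝ) ≤ m := by exact_mod_cast hm108
      by_contra h8
      rw [not_le] at h8
      have h9 : Z ^ 2 < 4 := by nlinarith
      nlinarith
    nlinarith
  -- conclusion
  have hfin : R k (l + 1) ≤ (q + 1) * R k l := by
    rcases dichotomy hk hl hq0 with h | ⟨A, hA, h⟩
    · exact h
    have h1 := sum_le_exp A l q k hq0 hk hl hA.le
    have h2 : ((R k (l + 1) : ℕ) : ℝ) ≤ ((q + 1) * R k l : ℕ) := by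
      calc ((R k (l + 1) : ℕ) : ℝ) ≤ (((q + 1) * (k + ∑ P ∈ A.powerset.filter
            (fun P => q * P.card ≤ A.card), (P.card + l).choose P.card) : ℕ) : ℝ) := by
            exact_mod_cast h
        _ = ((q : ℝ) + 1) * ((k : ℝ) + ((∑ P ∈ A.powerset.filter
            (fun P => q * P.card ≤ A.card), (P.card + l).choose P.card : ℕ) : ℝ)) := by
            push_cast; ring
        _ ≤ ((q : ℝ) + 1) * ((k : ℝ) + Z) := by
            have := h1.trans (Real.exp_le_exp.2 hexp)
            gcongr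
        _ ≤ ((q : ℝ) + 1) * R k l := by
            have := hZlarge.trans hRZ
            gcongr
        _ = ((q + 1) * R k l : ℕ) := by push_cast; ring
    exact_mod_cast h2
  have h1 : (R k (l + 1) : ℝ) ≤ (q + 1) * R k l := by exact_mod_cast hfin
  refine h1.trans ?_
  apply mul_le_mul_of_nonneg_right _ hRkl'.le
  rw [hqcast]
  nlinarith

end Pool.Agent.H818R2.Ram
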